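import Pool.Agent.H9.SF.FDefs

/-! The forcing relation is monotone and closed under density. -/

set_option linter.unusedVariables false

namespace SF.H4

open SF

theorem fd (hFA : T_FA) : T_FD := by
  intro M c r hP φ
  obtain ⟨hA1, hA2, hA3, hA4⟩ := hFA c r hP
  have hc : ∀ p q : V, ZFSet.pair q p ∈ r → q ∈ c := by
    intro p q h
    obtain ⟨a, ha, b, hb, hab⟩ := hP.sub _ h
    rw [(ZFSet.pair_inj.1 hab).1]
    exact ha
  induction φ with
  | mem i j =>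
    intro v
    refine ⟨fun p q h1 h2 => ?_, fun p _ h => ?_⟩
    · exact hA3 _ _ p q h1 h2
    · exact hA4 _ _ p h
  | eq i j =>
    intro v
    refine ⟨fun p q h1 h2 => ?_, fun p _ h => ?_⟩
    · exact hA1 _ _ p q h1 h2
    · exact hA2 _ _ p h
  | prd i =>
    intro v
    refine ⟨fun p q h1 h2 => h1, fun p hp h => ?_⟩
    obtain ⟨q, -, hq⟩ := h p (hP.refl p hp)
    exact hq
  | neg φ ih =>
    intro v
    refine ⟨fun p q h1 h2 s hs => ?_, fun p hp h => ?_⟩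
    · exact h1 s (hP.trans _ _ _ hs h2)
    · intro q hq hf
      obtain ⟨q1, hq1, h1⟩ := h q hq
      exact h1 q1 (hP.refl q1 (hc _ _ hq1)) ((ih v).1 q q1 hf hq1)
  | and φ ψ ih1 ih2 =>
    intro v
    refine ⟨fun p q h1 h2 => ?_, fun p hp h => ?_⟩
    · exact ⟨(ih1 v).1 p q h1.1 h2, (ih2 v).1 p q h1.2 h2⟩
    · refine ⟨(ih1 v).2 p hp fun q hq => ?_, (ih2 v).2 p hp fun q hq => ?_⟩
      · obtain ⟨q1, h1, h2⟩ := h q hq
        exact ⟨q1, h1, h2.1⟩
      · obtain ⟨q1, h1, h2⟩ := h q hq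
        exact ⟨q1, h1, h2.2⟩
  | ex φ ih =>
    intro v
    refine ⟨fun p q h1 h2 s hs => ?_, fun p hp h => ?_⟩
    · exact h1 s (hP.trans _ _ _ hs h2)
    · intro q hq
      obtain ⟨q1, hq1, h1⟩ := h q hq
      obtain ⟨q2, hq2, τ, hτ, h2⟩ := h1 q1 (hP.refl q1 (hc _ _ hq1))
      exact ⟨q2, hP.trans _ _ _ hq2 hq1, τ, hτ, h2⟩

end SF.H4
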