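import Pool.Agent.H9.SF.FDefs

/-! Truth lemma for the atomic formulas. -/

set_option linter.unusedVariables false

namespace SF.H4

open SF

theorem fE_iff (r τ σ p : V) : fE r τ σ p ↔
    (∀ π s : V, ZFSet.pair π s ∈ τ → ∀ q : V, ZFSet.pair q p ∈ r → ZFSet.pair q s ∈ r →
      ∃ q', ZFSet.pair q' q ∈ r ∧ ∃ π' s', ZFSet.pair π' s' ∈ σ ∧ ZFSet.pair q' s' ∈ r ∧
        fE r π π' q') ∧
    (∀ π' s' : V, ZFSet.pair π' s' ∈ σ → ∀ q : V, ZFSet.pair q p ∈ r → ZFSet.pair q s' ∈ r →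
      ∃ q', ZFSet.pair q' q ∈ r ∧ ∃ π s, ZFSet.pair π s ∈ τ ∧ ZFSet.pair q' s ∈ r ∧
        fE r π π' q') := by
  rw [fE]
  constructor
  · rintro ⟨h1, h2⟩
    refine ⟨?_, ?_⟩
    · intro π s hz q hq hs
      obtain ⟨q', hq', z', hz', ⟨a, b, hab⟩, hs', he⟩ :=
        h1 _ hz ⟨π, s, rfl⟩ q hq (by rwa [snd_pair])
      subst hab
      rw [snd_pair] at hs'
      rw [fst_pair, fst_pair] at he
      exact ⟨q', hq', a, b, hz', hs', he⟩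
    · intro π' s' hz q hq hs
      obtain ⟨q', hq', z', hz', ⟨a, b, hab⟩, hs', he⟩ :=
        h2 _ hz ⟨π', s', rfl⟩ q hq (by rwa [snd_pair])
      subst hab
      rw [snd_pair] at hs'
      rw [fst_pair, fst_pair] at he
      exact ⟨q', hq', a, b, hz', hs', he⟩
  · rintro ⟨h1, h2⟩
    refine ⟨?_, ?_⟩
    · rintro z hz ⟨a, b, hab⟩ q hq hs
      subst hab
      rw [snd_pair] at hs
      obtain ⟨q', hq', π', s', hz', hs', he⟩ := h1 a b hz q hq hs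
      refine ⟨q', hq', _, hz', ⟨π', s', rfl⟩, ?_, ?_⟩
      · rwa [snd_pair]
      · rwa [fst_pair, fst_pair]
    · rintro z hz ⟨a, b, hab⟩ q hq hs
      subst hab
      rw [snd_pair] at hs
      obtain ⟨q', hq', π', s', hz', hs', he⟩ := h2 a b hz q hq hs
      refine ⟨q', hq', _, hz', ⟨π', s', rfl⟩, ?_, ?_⟩
      · rwa [snd_pair]
      · rwa [fst_pair, fst_pair]

theorem fM_iff (r τ σ p : V) : fM r τ σ p ↔
    ∀ q : V, ZFSet.pair q p ∈ r → ∃ q', ZFSet.pair q' q ∈ r ∧ ∃ π' s', ZFSet.pair π' s' ∈ σ ∧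
      ZFSet.pair q' s' ∈ r ∧ fE r τ π' q' := by
  unfold fM
  constructor
  · intro h q hq
    obtain ⟨q', hq', z', hz', ⟨a, b, hab⟩, hs', he⟩ := h q hq
    subst hab
    rw [snd_pair] at hs'
    rw [fst_pair] at he
    exact ⟨q', hq', a, b, hz', hs', he⟩
  · intro h q hq
    obtain ⟨q', hq', π', s', hz', hs', he⟩ := h q hq
    refine ⟨q', hq', _, hz', ⟨π', s', rfl⟩, ?_, ?_⟩
    · rwa [snd_pair]
    · rwa [fst_pair]

theorem dfb_fE (hFB : T_FB) {f g h k : (V → Prop) → (ℕ → V) → V} (hf : Tm ZFm f) (hg : Tm ZFm g)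
    (hh : Tm ZFm h) (hk : Tm ZFm k) :
    Dfb ZFm (fun M v => fE (f M v) (g M v) (h M v) (k M v)) :=
  hFB.1.comp (args [f, g, h, k]) (tm_args _ (by
    intro a ha; simp only [List.mem_cons, List.not_mem_nil, or_false] at ha
    rcases ha with rfl | rfl | rfl | rfl <;> assumption))

/-- the conditions which force that `π` equals an element of `σ` -/
noncomputable def D1 (c r π σ : V) : V :=
  c.sep fun q => ∃ z ∈ σ, IsPr z ∧ ZFSet.pair q (snd z) ∈ r ∧ fE r π (fst z) q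

/-- the conditions which force that an element of `τ` equals `π` -/
noncomputable def D2 (c r π τ : V) : V :=
  c.sep fun q => ∃ z ∈ τ, IsPr z ∧ ZFSet.pair q (snd z) ∈ r ∧ fE r (fst z) π q

/-- the conditions which decide the equality -/
noncomputable def D3 (c r τ σ : V) : V :=
  c.sep fun p => fE r τ σ p ∨
    ((∃ z ∈ τ, IsPr z ∧ ZFSet.pair p (snd z) ∈ r ∧ ∀ q ∈ c, ZFSet.pair q p ∈ r →
      ∀ z1 ∈ σ, IsPr z1 → ZFSet.pair q (snd z1) ∈ r → ¬ fE r (fst z) (fst z1) q) ∨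
    (∃ z1 ∈ σ, IsPr z1 ∧ ZFSet.pair p (snd z1) ∈ r ∧ ∀ q ∈ c, ZFSet.pair q p ∈ r →
      ∀ z ∈ τ, IsPr z → ZFSet.pair q (snd z) ∈ r → ¬ fE r (fst z) (fst z1) q))

theorem D1_mem (hFB : T_FB) {M : V → Prop} (hM : ZFm M) {c r π σ : V} (hc : M c) (hr : M r)
    (hπ : M π) (hσ : M σ) : M (D1 c r π σ) := by
  have h1 : Dfb ZFm (fun _ w => ∃ z ∈ w 4, IsPr z ∧ ZFSet.pair (w 0) (snd z) ∈ w 2 ∧
      fE (w 2) (w 3) (fst z) (w 0)) :=
    (Dfb.bex (R := fun _ u => IsPr (u 0) ∧ ZFSet.pair (u 1) (snd (u 0)) ∈ u 3 ∧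
      fE (u 3) (u 4) (fst (u 0)) (u 1)) ktr_zfm (Tm.var 4)
      ((Dfb.isPr (Tm.var 0)).and ((Dfb.pairMem (Tm.var 1) (Tm.snd (Tm.var 0)) (Tm.var 3)).and
        (dfb_fE hFB (Tm.var 3) (Tm.var 4) (Tm.fst (Tm.var 0)) (Tm.var 1))))).congr
      fun M k v hv => Iff.rfl
  exact (Tm.sep h1 (Tm.var 0)).1 M hM (cons c (cons r (cons π (cons σ fun _ => c))))
    (((In.cons (In.cons (fun _ => hc) hσ) hπ).cons hr).cons hc)

theorem D2_mem (hFB : T_FB) {M : V → Prop} (hM : ZFm M) {c r π τ : V} (hc : M c) (hr : M r)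
    (hπ : M π) (hτ : M τ) : M (D2 c r π τ) := by
  have h1 : Dfb ZFm (fun _ w => ∃ z ∈ w 4, IsPr z ∧ ZFSet.pair (w 0) (snd z) ∈ w 2 ∧
      fE (w 2) (fst z) (w 3) (w 0)) :=
    (Dfb.bex (R := fun _ u => IsPr (u 0) ∧ ZFSet.pair (u 1) (snd (u 0)) ∈ u 3 ∧
      fE (u 3) (fst (u 0)) (u 4) (u 1)) ktr_zfm (Tm.var 4)
      ((Dfb.isPr (Tm.var 0)).and ((Dfb.pairMem (Tm.var 1) (Tm.snd (Tm.var 0)) (Tm.var 3)).and
        (dfb_fE hFB (Tm.var 3) (Tm.fst (Tm.var 0)) (Tm.var 4) (Tm.var 1))))).congr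
      fun M k v hv => Iff.rfl
  exact (Tm.sep h1 (Tm.var 0)).1 M hM (cons c (cons r (cons π (cons τ fun _ => c))))
    (((In.cons (In.cons (fun _ => hc) hτ) hπ).cons hr).cons hc)

theorem D3_mem (hFB : T_FB) {M : V → Prop} (hM : ZFm M) {c r τ σ : V} (hc : M c) (hr : M r)
    (hτ : M τ) (hσ : M σ) : M (D3 c r τ σ) := by
  -- assignment `w = p, c, r, τ, σ`
  have h1 : Dfb ZFm (fun _ w => fE (w 2) (w 3) (w 4) (w 0)) :=
    dfb_fE hFB (Tm.var 2) (Tm.var 3) (Tm.var 4) (Tm.var 0)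
  have h2 : Dfb ZFm (fun _ w => ∃ z ∈ w 3, IsPr z ∧ ZFSet.pair (w 0) (snd z) ∈ w 2 ∧
      ∀ q ∈ w 1, ZFSet.pair q (w 0) ∈ w 2 → ∀ z1 ∈ w 4, IsPr z1 → ZFSet.pair q (snd z1) ∈ w 2 →
        ¬ fE (w 2) (fst z) (fst z1) q) := by
    -- `u = z, p, c, r, τ, σ`, then `q, z, p, c, r, τ, σ`, then `z1, q, z, p, c, r, τ, σ`
    refine (Dfb.bex (R := fun _ u => IsPr (u 0) ∧ ZFSet.pair (u 1) (snd (u 0)) ∈ u 3 ∧
      ∀ q ∈ u 2, ZFSet.pair q (u 1) ∈ u 3 → ∀ z1 ∈ u 5, IsPr z1 → ZFSet.pair q (snd z1) ∈ u 3 →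
        ¬ fE (u 3) (fst (u 0)) (fst z1) q) ktr_zfm (Tm.var 3) ?_).congr fun M k v hv => Iff.rfl
    refine (Dfb.isPr (Tm.var 0)).and ((Dfb.pairMem (Tm.var 1) (Tm.snd (Tm.var 0)) (Tm.var 3)).and
      ?_)
    refine (Dfb.ball (R := fun _ u => ZFSet.pair (u 0) (u 2) ∈ u 4 → ∀ z1 ∈ u 6, IsPr z1 →
      ZFSet.pair (u 0) (snd z1) ∈ u 4 → ¬ fE (u 4) (fst (u 1)) (fst z1) (u 0)) ktr_zfm
      (Tm.var 2) ?_).congr fun M k v hv => Iff.rfl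
    refine (Dfb.pairMem (Tm.var 0) (Tm.var 2) (Tm.var 4)).imp ?_
    refine (Dfb.ball (R := fun _ u => IsPr (u 0) → ZFSet.pair (u 1) (snd (u 0)) ∈ u 5 →
      ¬ fE (u 5) (fst (u 2)) (fst (u 0)) (u 1)) ktr_zfm (Tm.var 6) ?_).congr
      fun M k v hv => Iff.rfl
    exact (Dfb.isPr (Tm.var 0)).imp ((Dfb.pairMem (Tm.var 1) (Tm.snd (Tm.var 0)) (Tm.var 5)).imp
      (dfb_fE hFB (Tm.var 5) (Tm.fst (Tm.var 2)) (Tm.fst (Tm.var 0)) (Tm.var 1)).not)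
  have h3 : Dfb ZFm (fun _ w => ∃ z1 ∈ w 4, IsPr z1 ∧ ZFSet.pair (w 0) (snd z1) ∈ w 2 ∧
      ∀ q ∈ w 1, ZFSet.pair q (w 0) ∈ w 2 → ∀ z ∈ w 3, IsPr z → ZFSet.pair q (snd z) ∈ w 2 →
        ¬ fE (w 2) (fst z) (fst z1) q) := by
    refine (Dfb.bex (R := fun _ u => IsPr (u 0) ∧ ZFSet.pair (u 1) (snd (u 0)) ∈ u 3 ∧
      ∀ q ∈ u 2, ZFSet.pair q (u 1) ∈ u 3 → ∀ z ∈ u 4, IsPr z → ZFSet.pair q (snd z) ∈ u 3 →
        ¬ fE (u 3) (fst z) (fst (u 0)) q) ktr_zfm (Tm.var 4) ?_).congr fun M k v hv => Iff.rfl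
    refine (Dfb.isPr (Tm.var 0)).and ((Dfb.pairMem (Tm.var 1) (Tm.snd (Tm.var 0)) (Tm.var 3)).and
      ?_)
    refine (Dfb.ball (R := fun _ u => ZFSet.pair (u 0) (u 2) ∈ u 4 → ∀ z ∈ u 5, IsPr z →
      ZFSet.pair (u 0) (snd z) ∈ u 4 → ¬ fE (u 4) (fst z) (fst (u 1)) (u 0)) ktr_zfm
      (Tm.var 2) ?_).congr fun M k v hv => Iff.rfl
    refine (Dfb.pairMem (Tm.var 0) (Tm.var 2) (Tm.var 4)).imp ?_
    refine (Dfb.ball (R := fun _ u => IsPr (u 0) → ZFSet.pair (u 1) (snd (u 0)) ∈ u 5 →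
      ¬ fE (u 5) (fst (u 0)) (fst (u 2)) (u 1)) ktr_zfm (Tm.var 5) ?_).congr
      fun M k v hv => Iff.rfl
    exact (Dfb.isPr (Tm.var 0)).imp ((Dfb.pairMem (Tm.var 1) (Tm.snd (Tm.var 0)) (Tm.var 5)).imp
      (dfb_fE hFB (Tm.var 5) (Tm.fst (Tm.var 0)) (Tm.fst (Tm.var 2)) (Tm.var 1)).not)
  exact (Tm.sep (h1.or (h2.or h3)) (Tm.var 0)).1 M hM
    (cons c (cons r (cons τ (cons σ fun _ => c))))
    (((In.cons (In.cons (fun _ => hc) hσ) hτ).cons hr).cons hc)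

theorem D3_dense {c r : V} (hP : IsPo c r) (τ σ : V) : IsDense c r (D3 c r τ σ) := by
  have hc : ∀ p q : V, ZFSet.pair q p ∈ r → q ∈ c := by
    intro p q h
    obtain ⟨a, ha, b, hb, hab⟩ := hP.sub _ h
    rw [(ZFSet.pair_inj.1 hab).1]
    exact ha
  refine ⟨fun x hx => (ZFSet.mem_sep.1 hx).1, fun p hp => ?_⟩
  by_cases hE : fE r τ σ p
  · exact ⟨p, ZFSet.mem_sep.2 ⟨hp, Or.inl hE⟩, hP.refl p hp⟩
  · rw [fE_iff, not_and_or] at hE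
    rcases hE with hE | hE
    · push Not at hE
      obtain ⟨π, s, hz, q, hq, hs, h⟩ := hE
      refine ⟨q, ZFSet.mem_sep.2 ⟨hc _ _ hq, Or.inr (Or.inl ⟨_, hz, ⟨π, s, rfl⟩, ?_, ?_⟩)⟩, hq⟩
      · rwa [snd_pair]
      · rintro q1 hq1 hq1q z1 hz1 ⟨a, b, rfl⟩ hs1 he
        rw [snd_pair] at hs1
        rw [fst_pair, fst_pair] at he
        exact h q1 hq1q a b hz1 hs1 he
    · push Not at hE
      obtain ⟨π, s, hz, q, hq, hs, h⟩ := hE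
      refine ⟨q, ZFSet.mem_sep.2 ⟨hc _ _ hq, Or.inr (Or.inr ⟨_, hz, ⟨π, s, rfl⟩, ?_, ?_⟩)⟩, hq⟩
      · rwa [snd_pair]
      · rintro q1 hq1 hq1q z1 hz1 ⟨a, b, rfl⟩ hs1 he
        rw [snd_pair] at hs1
        rw [fst_pair, fst_pair] at he
        exact h q1 hq1q a b hz1 hs1 he

theorem ff_eq (hFA : T_FA) (hFB : T_FB) (hFE : T_FE) (M : V → Prop) (c r G : V) (hM : ZFm M)
    (hcM : M c) (hrM : M r) (hP : IsPo c r) (hG : Gen M c r G) (τ σ : V) (hτ : M τ) (hσ : M σ) :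
    val G τ = val G σ ↔ ∃ p ∈ G, fE r τ σ p := by
  obtain ⟨hA1, hA2, hA3, hA4⟩ := hFA c r hP
  have hc : ∀ p q : V, ZFSet.pair q p ∈ r → q ∈ c := by
    intro p q h
    obtain ⟨a, ha, b, hb, hab⟩ := hP.sub _ h
    rw [(ZFSet.pair_inj.1 hab).1]
    exact ha
  induction hx : τ.rank using WellFoundedLT.induction generalizing τ σ with
  | _ a ih =>
  constructor
  · intro hval
    obtain ⟨p, hpG, hpD⟩ := hG.2 _ (D3_mem hFB hM hcM hrM hτ hσ) (D3_dense hP τ σ)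
    obtain ⟨hpc, h⟩ := ZFSet.mem_sep.1 hpD
    rcases h with h | ⟨z, hz, ⟨π, s, rfl⟩, hs, h⟩ | ⟨z, hz, ⟨π, s, rfl⟩, hs, h⟩
    · exact ⟨p, hpG, h⟩
    · exfalso
      rw [snd_pair] at hs
      have hsG : s ∈ G := hG.1.up p hpG s hs
      have h1 : val G π ∈ val G σ := hval ▸ val_mem hz hsG
      obtain ⟨π1, s1, hs1, hz1, hv⟩ := mem_val.1 h1
      obtain ⟨p1, hp1, hE⟩ := (ih π.rank (hx ▸ rank_lt_of_pair_mem_left hz) π π1
        (hM.of_pair_mem hτ hz).1 (hM.of_pair_mem hσ hz1).1 rfl).1 hv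
      obtain ⟨q0, hq0, h01, h02⟩ := hG.1.dir p hpG p1 hp1
      obtain ⟨q1, hq1, h11, h12⟩ := hG.1.dir q0 hq0 s1 hs1
      have hq1p : ZFSet.pair q1 p ∈ r := hP.trans _ _ _ h11 h01
      refine h q1 (hc _ _ h11) hq1p _ hz1 ⟨π1, s1, rfl⟩ (by rwa [snd_pair]) ?_
      rw [fst_pair, fst_pair]
      exact hA1 _ _ _ _ hE (hP.trans _ _ _ h11 h02)
    · exfalso
      rw [snd_pair] at hs
      have hsG : s ∈ G := hG.1.up p hpG s hs
      have h1 : val G π ∈ val G τ := hval ▸ val_mem hz hsG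
      obtain ⟨π1, s1, hs1, hz1, hv⟩ := mem_val.1 h1
      obtain ⟨p1, hp1, hE⟩ := (ih π1.rank (hx ▸ rank_lt_of_pair_mem_left hz1) π1 π
        (hM.of_pair_mem hτ hz1).1 (hM.of_pair_mem hσ hz).1 rfl).1 hv.symm
      obtain ⟨q0, hq0, h01, h02⟩ := hG.1.dir p hpG p1 hp1
      obtain ⟨q1, hq1, h11, h12⟩ := hG.1.dir q0 hq0 s1 hs1
      have hq1p : ZFSet.pair q1 p ∈ r := hP.trans _ _ _ h11 h01
      refine h q1 (hc _ _ h11) hq1p _ hz1 ⟨π1, s1, rfl⟩ (by rwa [snd_pair]) ?_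
      rw [fst_pair, fst_pair]
      exact hA1 _ _ _ _ hE (hP.trans _ _ _ h11 h02)
  · rintro ⟨p, hpG, hE⟩
    obtain ⟨hE1, hE2⟩ := (fE_iff r τ σ p).1 hE
    ext y
    constructor
    · intro hy
      obtain ⟨π, s, hs, hz, rfl⟩ := mem_val.1 hy
      have hπM := (hM.of_pair_mem hτ hz).1
      obtain ⟨q0, hq0, h01, h02⟩ := hG.1.dir p hpG s hs
      obtain ⟨d, hdG, hdD, hd⟩ := hFE M c r G (D1 c r π σ) q0 hM hcM hrM hP hG
        (D1_mem hFB hM hcM hrM hπM hσ) hq0 (by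
          intro q hq
          obtain ⟨q', hq', π', s', hz', hs', he⟩ :=
            hE1 π s hz q (hP.trans _ _ _ hq h01) (hP.trans _ _ _ hq h02)
          refine ⟨q', ZFSet.mem_sep.2 ⟨hc _ _ hq', _, hz', ⟨π', s', rfl⟩, ?_, ?_⟩, hq'⟩
          · rwa [snd_pair]
          · rwa [fst_pair])
      obtain ⟨-, z, hz', ⟨π', s', rfl⟩, hs', he⟩ := ZFSet.mem_sep.1 hdD
      rw [snd_pair] at hs'
      rw [fst_pair] at he
      have hs'G : s' ∈ G := hG.1.up d hdG s' hs'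
      have h3 := (ih π.rank (hx ▸ rank_lt_of_pair_mem_left hz) π π' hπM
        (hM.of_pair_mem hσ hz').1 rfl).2 ⟨d, hdG, he⟩
      rw [h3]
      exact val_mem hz' hs'G
    · intro hy
      obtain ⟨π, s, hs, hz, rfl⟩ := mem_val.1 hy
      have hπM := (hM.of_pair_mem hσ hz).1
      obtain ⟨q0, hq0, h01, h02⟩ := hG.1.dir p hpG s hs
      obtain ⟨d, hdG, hdD, hd⟩ := hFE M c r G (D2 c r π τ) q0 hM hcM hrM hP hG
        (D2_mem hFB hM hcM hrM hπM hτ) hq0 (by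
          intro q hq
          obtain ⟨q', hq', π', s', hz', hs', he⟩ :=
            hE2 π s hz q (hP.trans _ _ _ hq h01) (hP.trans _ _ _ hq h02)
          refine ⟨q', ZFSet.mem_sep.2 ⟨hc _ _ hq', _, hz', ⟨π', s', rfl⟩, ?_, ?_⟩, hq'⟩
          · rwa [snd_pair]
          · rwa [fst_pair])
      obtain ⟨-, z, hz', ⟨π', s', rfl⟩, hs', he⟩ := ZFSet.mem_sep.1 hdD
      rw [snd_pair] at hs'
      rw [fst_pair] at he
      have hs'G : s' ∈ G := hG.1.up d hdG s' hs'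
      have h3 := (ih π'.rank (hx ▸ rank_lt_of_pair_mem_left hz') π' π
        (hM.of_pair_mem hτ hz').1 hπM rfl).2 ⟨d, hdG, he⟩
      rw [← h3]
      exact val_mem hz' hs'G

theorem ff (hFA : T_FA) (hFB : T_FB) (hFE : T_FE) : T_FF := by
  intro M c r G hM hcM hrM hP hG τ σ hτ hσ
  obtain ⟨hA1, hA2, hA3, hA4⟩ := hFA c r hP
  have hc : ∀ p q : V, ZFSet.pair q p ∈ r → q ∈ c := by
    intro p q h
    obtain ⟨a, ha, b, hb, hab⟩ := hP.sub _ h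
    rw [(ZFSet.pair_inj.1 hab).1]
    exact ha
  refine ⟨ff_eq hFA hFB hFE M c r G hM hcM hrM hP hG τ σ hτ hσ, ?_⟩
  constructor
  · intro h
    obtain ⟨π1, s1, hs1, hz1, hv⟩ := mem_val.1 h
    obtain ⟨p, hp, hE⟩ := (ff_eq hFA hFB hFE M c r G hM hcM hrM hP hG τ π1 hτ
      (hM.of_pair_mem hσ hz1).1).1 hv
    obtain ⟨q0, hq0, h01, h02⟩ := hG.1.dir p hp s1 hs1
    refine ⟨q0, hq0, (fM_iff _ _ _ _).2 fun q hq => ?_⟩
    exact ⟨q, hP.refl q (hc _ _ hq), π1, s1, hz1, hP.trans _ _ _ hq h02,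
      hA1 _ _ _ _ hE (hP.trans _ _ _ hq h01)⟩
  · rintro ⟨p, hpG, hE⟩
    have hE1 := (fM_iff _ _ _ _).1 hE
    obtain ⟨d, hdG, hdD, hd⟩ := hFE M c r G (D1 c r τ σ) p hM hcM hrM hP hG
      (D1_mem hFB hM hcM hrM hτ hσ) hpG (by
        intro q hq
        obtain ⟨q', hq', π', s', hz', hs', he⟩ := hE1 q hq
        refine ⟨q', ZFSet.mem_sep.2 ⟨hc _ _ hq', _, hz', ⟨π', s', rfl⟩, ?_, ?_⟩, hq'⟩
        · rwa [snd_pair]
        · rwa [fst_pair])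
    obtain ⟨-, z, hz', ⟨π', s', rfl⟩, hs', he⟩ := ZFSet.mem_sep.1 hdD
    rw [snd_pair] at hs'
    rw [fst_pair] at he
    have hs'G : s' ∈ G := hG.1.up d hdG s' hs'
    have h3 := (ff_eq hFA hFB hFE M c r G hM hcM hrM hP hG τ π' hτ
      (hM.of_pair_mem hσ hz').1).2 ⟨d, hdG, he⟩
    rw [h3]
    exact val_mem hz' hs'G

end SF.H4
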