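import Pool.Agent.H3.SF.Targets

/-!
# Board `spw_modules`, row PA1: choice of the parameters
-/

set_option autoImplicit false

open Pool.Agent.H3.SF Pool.Agent.H99.SQ
open Filter

namespace Pool.Agent.H4.SF

theorem pa1_lcm (Z : ℕ) : (Nat.lcmUpto Z : ℝ) ≤ Real.exp (6 * Z) := by
  have h1 := Chebyshev.psi_eq_log_lcmUpto Z
  have h2 := Chebyshev.psi_le_const_mul_self (x := (Z : ℝ)) (Nat.cast_nonneg Z)
  have hpos : (0 : ℝ) < Nat.lcmUpto Z := by exact_mod_cast Nat.lcmUpto_pos Z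
  rw [← Real.log_le_iff_le_exp hpos, ← h1]
  refine h2.trans ?_
  have h3 : Real.log 4 + 4 ≤ 6 := by
    have e : (4 : ℝ) = 2 ^ 2 := by norm_num
    have h4 : Real.log 4 = 2 * Real.log 2 := by
      rw [e, Real.log_pow]
      norm_num
    linarith [Real.log_two_lt_d9]
  exact mul_le_mul_of_nonneg_right h3 (Nat.cast_nonneg Z)

theorem pa1_P0 (Z b : ℕ) : (P0 Z b : ℝ) ≤ Real.exp (24 * b * Z) := by
  rw [P0]
  push_cast
  calc (Nat.lcmUpto Z : ℝ) ^ (4 * b) ≤ (Real.exp (6 * Z)) ^ (4 * b) :=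
        pow_le_pow_left₀ (Nat.cast_nonneg _) (pa1_lcm Z) _
    _ = Real.exp (24 * b * Z) := by
        rw [← Real.exp_nat_mul]
        congr 1
        push_cast
        ring

theorem pa1_core (A ε κ l : ℝ) (a b L : ℕ) (hA : 0 < A) (hε : 0 < ε) (hε1 : ε < 1) (hb1 : 1 ≤ b)
    (hb : A + 2 ≤ ((b : ℝ) - 1) * (ε / 8)) (ha : A + 3 ≤ a) (hκ : κ * (192 * b) = ε) (hκ0 : 0 < κ)
    (hL : 3 ≤ L) (hl : Real.exp l = L) (F2 : 128 ≤ κ * l)
    (F4 : Real.exp (l / 4) * Real.log 2 + a * l ^ 2 ≤ Real.exp l * Real.log 2)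
    (F5 : 2 * l ^ b ≤ Real.exp (2 * l)) (F6 : 64 * (A + 2) / κ ≤ Real.log ((κ * l - 1) / 32)) :
    ∃ Z r K W : ℕ, 1 ≤ K ∧ 32 * K ≤ Z ∧ 1 ≤ W ∧
      P0 Z b * Z ^ r * Z ≤ L ∧
      ((P0 Z b * Z ^ r : ℕ) : ℝ) ≤ Real.exp (ε / 4 * l) ∧
      2 ^ (P0 Z b * Z ^ r) * W ^ (2 * K) ≤ 2 ^ L ∧
      2 * ((Z : ℝ) / (Z : ℝ) ^ b) ^ r ≤ Real.exp (-(A * l)) ∧
      (r : ℝ) * (2 * (32 / Z) ^ K) ≤ Real.exp (-(A * l)) ∧
      ((L + 1 : ℕ) : ℝ) / W ≤ Real.exp (-(A * l)) := by
  have hb1' : (1 : ℝ) ≤ b := by exact_mod_cast hb1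
  have hκ1 : κ ≤ 1 / 192 := by
    rw [le_div_iff₀ (by norm_num)]
    nlinarith
  have hl0 : 0 < l := by
    by_contra h
    have : κ * l ≤ 0 := mul_nonpos_of_nonneg_of_nonpos hκ0.le (not_lt.1 h)
    linarith
  have hκl : κ * l ≤ l / 192 := by nlinarith
  -- Z
  obtain ⟨Z, hZ1, hZ2⟩ : ∃ Z : ℕ, (Z : ℝ) ≤ κ * l ∧ κ * l < Z + 1 :=
    ⟨⌊κ * l⌋₊, Nat.floor_le (by positivity), Nat.lt_floor_add_one _⟩
  have hZ3 : (127 : ℝ) < Z := by linarith
  have hZ3' : 127 < Z := by exact_mod_cast hZ3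
  have hZ0 : (0 : ℝ) < Z := by linarith
  have hZl : (Z : ℝ) ≤ l := by linarith
  have hlZ : 1 ≤ Real.log Z := by
    rw [Real.le_log_iff_exp_le hZ0]
    linarith [Real.exp_one_lt_d9]
  have hexpZ : Real.exp (Real.log Z) = Z := Real.exp_log hZ0
  -- r
  obtain ⟨r, hr1, hr2⟩ : ∃ r : ℕ, (r : ℝ) * Real.log Z ≤ ε / 8 * l ∧
      ε / 8 * l ≤ (r + 1) * Real.log Z := by
    refine ⟨⌊ε / 8 * l / Real.log Z⌋₊, ?_, ?_⟩
    · rw [← le_div_iff₀ (by linarith)]
      exact Nat.floor_le (by positivity)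
    · rw [← div_le_iff₀ (by linarith)]
      exact (Nat.lt_floor_add_one _).le
  have hr3 : (r : ℝ) ≤ l := by
    have h1 : (r : ℝ) * 1 ≤ r * Real.log Z := mul_le_mul_of_nonneg_left hlZ (Nat.cast_nonneg r)
    nlinarith
  -- K
  obtain ⟨K, hK0, hK1, hK2⟩ : ∃ K : ℕ, 1 ≤ K ∧ 32 * K ≤ Z ∧ Z < 32 * (K + 1) :=
    ⟨Z / 32, by omega, by omega, by omega⟩
  have hK1' : (32 : ℝ) * K ≤ Z := by exact_mod_cast hK1
  have hK2' : (Z : ℝ) < 32 * (K + 1) := by exact_mod_cast hK2
  have hK3 : κ * l / 64 ≤ K := by linarith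
  have hL0 : (0 : ℝ) < L := by rw [← hl]; positivity
  -- B
  have hB : ((P0 Z b * Z ^ r : ℕ) : ℝ) ≤ Real.exp (ε / 4 * l) := by
    push_cast
    have h1 : (Z : ℝ) ^ r = Real.exp (r * Real.log Z) := by
      rw [Real.exp_nat_mul, hexpZ]
    calc (P0 Z b : ℝ) * (Z : ℝ) ^ r ≤ Real.exp (24 * b * Z) * Real.exp (ε / 8 * l) := by
          rw [h1]
          exact mul_le_mul (pa1_P0 Z b) (Real.exp_le_exp.2 hr1) (by positivity) (by positivity)
      _ = Real.exp (24 * b * Z + ε / 8 * l) := by rw [Real.exp_add]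
      _ ≤ Real.exp (ε / 4 * l) := by
          apply Real.exp_le_exp.2
          have h2 : 24 * (b : ℝ) * Z ≤ 24 * b * (κ * l) :=
            mul_le_mul_of_nonneg_left hZ1 (by positivity)
          have h3 : 24 * (b : ℝ) * (κ * l) = ε / 8 * l := by
            rw [← hκ]
            ring
          linarith
  have hBl : ((P0 Z b * Z ^ r : ℕ) : ℝ) ≤ Real.exp (l / 4) := by
    refine hB.trans (Real.exp_le_exp.2 ?_)
    nlinarith
  have hWc : ((L ^ a : ℕ) : ℝ) = Real.exp (a * l) := by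
    push_cast
    rw [Real.exp_nat_mul, hl]
  refine ⟨Z, r, K, L ^ a, hK0, hK1, Nat.one_le_pow _ _ (by omega), ?_, hB, ?_, ?_, ?_, ?_⟩
  · -- B Z ≤ L
    have h1 : ((P0 Z b * Z ^ r * Z : ℕ) : ℝ) ≤ L := by
      rw [Nat.cast_mul, ← hl]
      have h2 : (Z : ℝ) ≤ Real.exp (l / 2) := by
        have := Real.add_one_le_exp (l / 2)
        linarith
      calc ((P0 Z b * Z ^ r : ℕ) : ℝ) * Z ≤ Real.exp (l / 4) * Real.exp (l / 2) :=
            mul_le_mul hBl h2 hZ0.le (by positivity)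
        _ = Real.exp (l / 4 + l / 2) := by rw [Real.exp_add]
        _ ≤ Real.exp l := Real.exp_le_exp.2 (by linarith)
    exact_mod_cast h1
  · -- 2 ^ B W ^ (2 K) ≤ 2 ^ L
    have h2 : (2 : ℝ) = Real.exp (Real.log 2) := (Real.exp_log (by norm_num)).symm
    have h1 : ((2 ^ (P0 Z b * Z ^ r) * (L ^ a) ^ (2 * K) : ℕ) : ℝ) ≤ ((2 ^ L : ℕ) : ℝ) := by
      rw [Nat.cast_mul, Nat.cast_pow, Nat.cast_pow (L ^ a), hWc, Nat.cast_pow, Nat.cast_two]
      have e1 : (2 : ℝ) ^ (P0 Z b * Z ^ r) =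
          Real.exp (((P0 Z b * Z ^ r : ℕ) : ℝ) * Real.log 2) := by
        rw [Real.exp_nat_mul, ← h2]
      have e2 : (2 : ℝ) ^ L = Real.exp ((L : ℝ) * Real.log 2) := by
        rw [Real.exp_nat_mul, ← h2]
      rw [e1, e2, ← Real.exp_nat_mul, ← Real.exp_add]
      apply Real.exp_le_exp.2
      have h3 : ((P0 Z b * Z ^ r : ℕ) : ℝ) * Real.log 2 ≤ Real.exp (l / 4) * Real.log 2 :=
        mul_le_mul_of_nonneg_right hBl (Real.log_nonneg (by norm_num))
      have h4 : ((2 * K : ℕ) : ℝ) ≤ l := by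
        push_cast
        linarith
      have h5 : ((2 * K : ℕ) : ℝ) * (a * l) ≤ l * (a * l) :=
        mul_le_mul_of_nonneg_right h4 (by positivity)
      have h6 : l * ((a : ℝ) * l) = a * l ^ 2 := by ring
      rw [← hl]
      linarith
    exact_mod_cast h1
  · -- the powers of Z
    have e1 : (Z : ℝ) / (Z : ℝ) ^ b = Real.exp (-(((b : ℝ) - 1) * Real.log Z)) := by
      have : (Z : ℝ) ^ b = Real.exp (b * Real.log Z) := by rw [Real.exp_nat_mul, hexpZ]
      rw [this, div_eq_iff (by positivity), ← Real.exp_add]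
      have e : -(((b : ℝ) - 1) * Real.log Z) + b * Real.log Z = Real.log Z := by ring
      rw [e, hexpZ]
    rw [e1, ← Real.exp_nat_mul]
    have h1 : (r : ℝ) * -(((b : ℝ) - 1) * Real.log Z) ≤ -((A + 2) * l) + b * Real.log Z := by
      have h2 : ((b : ℝ) - 1) * (ε / 8 * l) ≤ (b - 1) * ((r + 1) * Real.log Z) :=
        mul_le_mul_of_nonneg_left hr2 (by linarith)
      have h3 : (A + 2) * l ≤ ((b : ℝ) - 1) * (ε / 8) * l :=
        mul_le_mul_of_nonneg_right hb hl0.le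
      have h4 : ((b : ℝ) - 1) * Real.log Z ≤ b * Real.log Z :=
        mul_le_mul_of_nonneg_right (by linarith) (by linarith)
      have h5 : ((b : ℝ) - 1) * (ε / 8) * l = ((b : ℝ) - 1) * (ε / 8 * l) := by ring
      have h6 : ((b : ℝ) - 1) * ((r + 1) * Real.log Z) =
          (r : ℝ) * ((b - 1) * Real.log Z) + (b - 1) * Real.log Z := by ring
      have h7 : (r : ℝ) * -(((b : ℝ) - 1) * Real.log Z) = -(r * ((b - 1) * Real.log Z)) := by ring
      rw [h7]
      linarith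
    calc 2 * Real.exp ((r : ℝ) * -(((b : ℝ) - 1) * Real.log Z)) ≤
          2 * Real.exp (-((A + 2) * l) + b * Real.log Z) :=
          mul_le_mul_of_nonneg_left (Real.exp_le_exp.2 h1) (by norm_num)
      _ = 2 * (Z : ℝ) ^ b * Real.exp (-((A + 2) * l)) := by
          rw [Real.exp_add, Real.exp_nat_mul, hexpZ]
          ring
      _ ≤ Real.exp (2 * l) * Real.exp (-((A + 2) * l)) := by
          refine mul_le_mul_of_nonneg_right ?_ (by positivity)
          refine le_trans ?_ F5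
          exact mul_le_mul_of_nonneg_left (pow_le_pow_left₀ hZ0.le hZl b) (by norm_num)
      _ = Real.exp (-(A * l)) := by
          rw [← Real.exp_add]
          congr 1
          ring
  · -- the Chernoff term
    have e1 : (32 : ℝ) / Z = Real.exp (-Real.log (Z / 32)) := by
      rw [Real.exp_neg, Real.exp_log (by positivity), inv_div]
    rw [e1, ← Real.exp_nat_mul]
    have h1 : 64 * (A + 2) / κ ≤ Real.log (Z / 32) := by
      refine F6.trans (Real.log_le_log ?_ ?_)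
      · have : 0 < κ * l - 1 := by linarith
        positivity
      · exact div_le_div_of_nonneg_right (by linarith) (by norm_num)
    have h2 : (A + 2) * l ≤ K * Real.log (Z / 32) := by
      have h3 : κ * l / 64 * (64 * (A + 2) / κ) ≤ K * Real.log (Z / 32) :=
        mul_le_mul hK3 h1 (by positivity) (Nat.cast_nonneg K)
      have h4 : κ * l / 64 * (64 * (A + 2) / κ) = (A + 2) * l := by
        field_simp
      rwa [h4] at h3
    have h5 : (r : ℝ) * 2 ≤ Real.exp (2 * l) := by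
      have := Real.add_one_le_exp (2 * l)
      linarith
    calc (r : ℝ) * (2 * Real.exp ((K : ℝ) * -Real.log (Z / 32))) =
          (r * 2) * Real.exp (-((K : ℝ) * Real.log (Z / 32))) := by
          rw [mul_neg]
          ring
      _ ≤ Real.exp (2 * l) * Real.exp (-((A + 2) * l)) :=
          mul_le_mul h5 (Real.exp_le_exp.2 (by linarith)) (by positivity) (by positivity)
      _ = Real.exp (-(A * l)) := by
          rw [← Real.exp_add]
          congr 1
          ring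
  · -- (L + 1) / W
    rw [hWc, div_le_iff₀ (by positivity), ← Real.exp_add]
    have h1 : ((L + 1 : ℕ) : ℝ) ≤ Real.exp (2 * l) := by
      have e : Real.exp (2 * l) = L * L := by
        rw [two_mul, Real.exp_add, hl]
      rw [e]
      have h3 : (3 : ℝ) ≤ L := by exact_mod_cast hL
      push_cast
      nlinarith
    refine h1.trans (Real.exp_le_exp.2 ?_)
    have : (A + 3) * l ≤ a * l := mul_le_mul_of_nonneg_right ha hl0.le
    nlinarith

theorem pa1_log (x : ℕ) (hx : 8 ≤ x) : Real.log x ≤ Nat.log 2 x := by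
  have h1 : x < 2 ^ (Nat.log 2 x).succ := Nat.lt_pow_succ_log_self (by norm_num) x
  have h2 : 3 ≤ Nat.log 2 x := Nat.le_log_of_pow_le (by norm_num) (by simpa using hx)
  have h3 : (3 : ℝ) ≤ Nat.log 2 x := by exact_mod_cast h2
  have h4 : (x : ℝ) ≤ (2 : ℝ) ^ (Nat.log 2 x).succ := by exact_mod_cast h1.le
  have hx0 : (0 : ℝ) < x := by
    have : 0 < x := by omega
    exact_mod_cast this
  have h5 := Real.log_le_log hx0 h4
  rw [Real.log_pow] at h5
  push_cast at h5
  have h6 := Real.log_two_lt_d9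
  have h7 : 0 < Real.log 2 := Real.log_pos (by norm_num)
  nlinarith

theorem pf_PA1 : T_PA1 := by
  intro A ε hA hε hε1
  obtain ⟨b, hb1, hb⟩ : ∃ b : ℕ, 1 ≤ b ∧ A + 2 ≤ ((b : ℝ) - 1) * (ε / 8) := by
    obtain ⟨n, hn⟩ := exists_nat_ge ((A + 2) / (ε / 8))
    refine ⟨n + 1, by omega, ?_⟩
    rw [div_le_iff₀ (by positivity)] at hn
    push_cast
    linarith
  refine ⟨b, hb1, ?_⟩
  have hb0 : (0 : ℝ) < b := by exact_mod_cast hb1
  obtain ⟨a, ha⟩ := exists_nat_ge (A + 3)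
  set κ : ℝ := ε / (192 * b) with hκdef
  have hκ0 : 0 < κ := by positivity
  have hκ : κ * (192 * b) = ε := by rw [hκdef]; field_simp
  -- the conditions
  have t1 : Tendsto (fun l : ℝ => κ * l) atTop atTop := tendsto_id.const_mul_atTop hκ0
  have F2 : ∀ᶠ l : ℝ in atTop, 128 ≤ κ * l := t1.eventually_ge_atTop _
  have F3 : ∀ᶠ l : ℝ in atTop, 8 ≤ Real.exp (3 * ε / 4 * l) :=
    (Real.tendsto_exp_atTop.comp (tendsto_id.const_mul_atTop
      (show (0 : ℝ) < 3 * ε / 4 by positivity))).eventually_ge_atTop _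
  have hlog2 : 0 < Real.log 2 := Real.log_pos (by norm_num)
  have F4 : ∀ᶠ l : ℝ in atTop,
      Real.exp (l / 4) * Real.log 2 + a * l ^ 2 ≤ Real.exp l * Real.log 2 := by
    filter_upwards [(Real.tendsto_exp_div_pow_atTop 2).eventually_ge_atTop (2 * a / Real.log 2),
      eventually_ge_atTop (4 : ℝ)] with l h1 h2
    rw [le_div_iff₀ (by positivity)] at h1
    have h3 : 2 * (a : ℝ) / Real.log 2 * l ^ 2 * Real.log 2 = 2 * a * l ^ 2 := by
      field_simp
    have h4 : 2 * (a : ℝ) * l ^ 2 ≤ Real.exp l * Real.log 2 := by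
      rw [← h3]
      exact mul_le_mul_of_nonneg_right h1 hlog2.le
    have h5 : 2 * Real.exp (l / 4) ≤ Real.exp l := by
      have h6 : (2 : ℝ) ≤ Real.exp (3 * l / 4) := by
        have := Real.add_one_le_exp (3 * l / 4)
        linarith
      calc 2 * Real.exp (l / 4) ≤ Real.exp (3 * l / 4) * Real.exp (l / 4) :=
            mul_le_mul_of_nonneg_right h6 (by positivity)
        _ = Real.exp l := by
            rw [← Real.exp_add]
            congr 1
            ring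
    nlinarith
  have F5 : ∀ᶠ l : ℝ in atTop, 2 * l ^ b ≤ Real.exp (2 * l) := by
    filter_upwards [(Real.tendsto_exp_div_pow_atTop b).eventually_ge_atTop 2,
      eventually_ge_atTop (1 : ℝ)] with l h1 h2
    rw [le_div_iff₀ (by positivity)] at h1
    refine h1.trans (Real.exp_le_exp.2 (by linarith))
  have F6 : ∀ᶠ l : ℝ in atTop, 64 * (A + 2) / κ ≤ Real.log ((κ * l - 1) / 32) := by
    have t2 : Tendsto (fun l : ℝ => (κ * l - 1) / 32) atTop atTop :=
      (tendsto_atTop_add_const_right _ (-1) t1).atTop_div_const (by norm_num)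
    exact (Real.tendsto_log_atTop.comp t2).eventually_ge_atTop _
  have tL : Tendsto (fun x : ℕ => Nat.log 2 x) atTop atTop := by
    rw [tendsto_atTop]
    intro n
    filter_upwards [eventually_ge_atTop (2 ^ n)] with x hx
    exact Nat.le_log_of_pow_le (by norm_num) hx
  have tl : Tendsto (fun x : ℕ => Real.log (Nat.log 2 x : ℕ)) atTop atTop :=
    Real.tendsto_log_atTop.comp (tendsto_natCast_atTop_atTop.comp tL)
  have F8 : ∀ᶠ x : ℕ in atTop, 4 * Real.sqrt x ≤ x / Real.log x ^ A := by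
    have h1 := (isLittleO_log_rpow_rpow_atTop A (show (0 : ℝ) < 1 / 2 by norm_num)).bound
      (show (0 : ℝ) < 1 / 4 by norm_num)
    have h2 := (tendsto_natCast_atTop_atTop (R := ℝ)).eventually h1
    filter_upwards [h2, eventually_ge_atTop 3] with x h3 h4
    have hx3 : (3 : ℝ) ≤ x := by exact_mod_cast h4
    have hlx : 0 < Real.log x := Real.log_pos (by linarith)
    have hpos : 0 < Real.log x ^ A := Real.rpow_pos_of_pos hlx A
    rw [Real.norm_of_nonneg hpos.le, Real.norm_of_nonneg (by positivity),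
      ← Real.sqrt_eq_rpow] at h3
    rw [le_div_iff₀ hpos]
    have h5 : Real.sqrt x * Real.sqrt x = x := Real.mul_self_sqrt (by linarith)
    have h6 : 0 ≤ Real.sqrt x := Real.sqrt_nonneg _
    nlinarith
  obtain ⟨x₀, hx₀⟩ := eventually_atTop.1 ((tl.eventually (F2.and (F3.and (F4.and
    (F5.and F6))))).and F8)
  refine ⟨max x₀ 8, le_max_of_le_right (by norm_num), fun x hx => ?_⟩
  obtain ⟨⟨f2, f3, f4, f5, f6⟩, f8⟩ := hx₀ x ((le_max_left _ _).trans hx)
  have hx8 : 8 ≤ x := (le_max_right _ _).trans hx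
  have hL3 : 3 ≤ Nat.log 2 x := Nat.le_log_of_pow_le (by norm_num) (by simpa using hx8)
  have hlx := pa1_log x hx8
  have hL0 : (0 : ℝ) < (Nat.log 2 x : ℕ) := by
    have : 0 < Nat.log 2 x := by omega
    exact_mod_cast this
  obtain ⟨Z, r, K, W, g1, g2, g3, g4, g5, g6, g7, g8, g9⟩ :=
    pa1_core A ε κ (Real.log (Nat.log 2 x : ℕ)) a b (Nat.log 2 x) hA hε hε1 hb1 hb ha hκ hκ0 hL3
      (Real.exp_log hL0) f2 f4 f5 f6
  have hx8' : (8 : ℝ) ≤ x := by exact_mod_cast hx8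
  have hlx0 : 0 < Real.log x := Real.log_pos (by linarith)
  have hinv : Real.exp (-(A * Real.log (Nat.log 2 x : ℕ))) ≤ 1 / Real.log x ^ A := by
    have e1 : Real.exp (A * Real.log (Nat.log 2 x : ℕ)) = ((Nat.log 2 x : ℕ) : ℝ) ^ A := by
      rw [Real.rpow_def_of_pos hL0, mul_comm]
    rw [Real.exp_neg, e1, ← one_div]
    exact one_div_le_one_div_of_le (Real.rpow_pos_of_pos hlx0 A)
      (Real.rpow_le_rpow hlx0.le hlx hA.le)
  refine ⟨Z, r, K, W, g1, g2, g3, g4, ?_, ?_, g7.trans hinv, g8.trans hinv, g9.trans hinv, f8⟩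
  · set l := Real.log (Nat.log 2 x : ℕ) with hldef
    have hexp : Real.exp l = (Nat.log 2 x : ℕ) := Real.exp_log hL0
    have hl0 : 0 ≤ l := by
      by_contra h
      have : κ * l ≤ 0 := mul_nonpos_of_nonneg_of_nonpos hκ0.le (not_le.1 h).le
      linarith
    have e1 : Real.exp ((1 - ε) * l) = ((Nat.log 2 x : ℕ) : ℝ) ^ (1 - ε) := by
      rw [Real.rpow_def_of_pos hL0, mul_comm]
    have h1 : Real.log x ^ (1 - ε) ≤ Real.exp ((1 - ε) * l) := by
      rw [e1]
      exact Real.rpow_le_rpow hlx0.le hlx (by linarith)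
    have h2 : 1 ≤ Real.exp ((1 - ε) * l) := by
      apply Real.one_le_exp
      exact mul_nonneg (by linarith) hl0
    calc (4 : ℝ) * (P0 Z b * Z ^ r : ℕ) * (Real.log x ^ (1 - ε) + 1) ≤
          4 * Real.exp (ε / 4 * l) * (2 * Real.exp ((1 - ε) * l)) := by
          refine mul_le_mul (mul_le_mul_of_nonneg_left g5 (by norm_num)) (by linarith)
            (by positivity) (by positivity)
      _ = 8 * Real.exp ((1 - 3 * ε / 4) * l) := by
          have e2 : (1 - 3 * ε / 4) * l = ε / 4 * l + (1 - ε) * l := by ring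
          rw [e2, Real.exp_add]
          ring
      _ ≤ Real.exp (3 * ε / 4 * l) * Real.exp ((1 - 3 * ε / 4) * l) :=
          mul_le_mul_of_nonneg_right f3 (by positivity)
      _ = (Nat.log 2 x : ℕ) := by
          rw [← hexp, ← Real.exp_add]
          congr 1
          ring
  · exact g6.trans (Nat.pow_log_le_self 2 (by omega))

end Pool.Agent.H4.SF
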