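import Pool.Agent.H4.SF.PA1

/-!
# Board `spw_modules`, row PA3: choice of the parameters
-/

set_option autoImplicit false

open Pool.Agent.H3.SF Pool.Agent.H99.SQ
open Filter

namespace Pool.Agent.H4.SF

theorem pa3_core (A η l : ℝ) (a L : ℕ) (hA : 0 < A) (hη : 0 < η) (hη1 : η < 1)
    (ha : A + 3 ≤ a) (hL : 3 ≤ L) (hl : Real.exp l = L) (F2 : 800 ≤ η * l)
    (F3 : Real.exp (l / 2) + 10 ≤ η * Real.exp l)
    (F4 : a * l ^ 2 ≤ Real.exp l * Real.log 2)
    (F6 : 400 * (A + 1) / η ≤ Real.log (η * (l / 50 - 1) / 4)) :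
    ∃ Z K W : ℕ, 1 ≤ K ∧ 1 ≤ Z ∧ 1 ≤ W ∧ (4 : ℝ) * K ≤ η * Z ∧
      (P0 Z 1 : ℝ) + 10 ≤ η * L ∧ Z ≤ L ∧ W ^ (2 * K) ≤ 2 ^ L ∧
      2 * (4 / (η * Z)) ^ K ≤ Real.exp (-(A * l)) ∧
      ((L + 1 : ℕ) : ℝ) / W ≤ Real.exp (-(A * l)) := by
  have hl0 : 0 < l := by
    by_contra h
    have : η * l ≤ 0 := mul_nonpos_of_nonneg_of_nonpos hη.le (not_lt.1 h)
    linarith
  have hl1 : η * l ≤ l := by nlinarith
  obtain ⟨Z, hZ1, hZ2⟩ : ∃ Z : ℕ, (Z : ℝ) ≤ l / 50 ∧ l / 50 < Z + 1 :=
    ⟨⌊l / 50⌋₊, Nat.floor_le (by positivity), Nat.lt_floor_add_one _⟩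
  have hZ0 : (0 : ℝ) < Z := by linarith
  have hZ0' : 1 ≤ Z := by
    have : 0 < Z := by exact_mod_cast hZ0
    omega
  have hηZ1 : η * (l / 50 - 1) ≤ η * Z := mul_le_mul_of_nonneg_left (by linarith) hη.le
  have hηZ2 : η * Z ≤ η * (l / 50) := mul_le_mul_of_nonneg_left hZ1 hη.le
  have hηZ3 : η * (l / 50 - 1) = η * l / 50 - η := by ring
  have hηZ4 : η * (l / 50) = η * l / 50 := by ring
  obtain ⟨K, hK1, hK2⟩ : ∃ K : ℕ, (K : ℝ) ≤ η * Z / 4 ∧ η * Z / 4 < K + 1 :=
    ⟨⌊η * Z / 4⌋₊, Nat.floor_le (by positivity), Nat.lt_floor_add_one _⟩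
  have hK0 : (0 : ℝ) < K := by linarith
  have hK0' : 1 ≤ K := by
    have : 0 < K := by exact_mod_cast hK0
    omega
  have hK3 : η * l / 400 ≤ K := by linarith
  have hL0 : (0 : ℝ) < L := by rw [← hl]; positivity
  have hWc : ((L ^ a : ℕ) : ℝ) = Real.exp (a * l) := by
    push_cast
    rw [Real.exp_nat_mul, hl]
  refine ⟨Z, K, L ^ a, hK0', hZ0', Nat.one_le_pow _ _ (by omega), by linarith, ?_, ?_, ?_, ?_, ?_⟩
  · have h1 := pa1_P0 Z 1
    have h2 : Real.exp (24 * ((1 : ℕ) : ℝ) * Z) ≤ Real.exp (l / 2) := by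
      apply Real.exp_le_exp.2
      rw [Nat.cast_one, mul_one]
      linarith
    have h3 := h1.trans h2
    rw [← hl]
    linarith
  · have h1 : (Z : ℝ) ≤ L := by
      rw [← hl]
      have := Real.add_one_le_exp l
      linarith
    exact_mod_cast h1
  · have h2 : (2 : ℝ) = Real.exp (Real.log 2) := (Real.exp_log (by norm_num)).symm
    have h1 : (((L ^ a) ^ (2 * K) : ℕ) : ℝ) ≤ ((2 ^ L : ℕ) : ℝ) := by
      rw [Nat.cast_pow (L ^ a), hWc, Nat.cast_pow, Nat.cast_two]
      have e2 : (2 : ℝ) ^ L = Real.exp ((L : ℝ) * Real.log 2) := by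
        rw [Real.exp_nat_mul, ← h2]
      rw [e2, ← Real.exp_nat_mul]
      apply Real.exp_le_exp.2
      have h4 : ((2 * K : ℕ) : ℝ) ≤ l := by
        push_cast
        linarith
      have h5 : ((2 * K : ℕ) : ℝ) * (a * l) ≤ l * (a * l) :=
        mul_le_mul_of_nonneg_right h4 (by positivity)
      have h6 : l * ((a : ℝ) * l) = a * l ^ 2 := by ring
      rw [← hl]
      linarith
    exact_mod_cast h1
  · have e1 : (4 : ℝ) / (η * Z) = Real.exp (-Real.log (η * Z / 4)) := by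
      rw [Real.exp_neg, Real.exp_log (by positivity), inv_div]
    rw [e1, ← Real.exp_nat_mul]
    have h1 : 400 * (A + 1) / η ≤ Real.log (η * Z / 4) := by
      refine F6.trans (Real.log_le_log ?_ ?_)
      · have : 0 < η * (l / 50 - 1) := by linarith
        positivity
      · exact div_le_div_of_nonneg_right hηZ1 (by norm_num)
    have h2 : (A + 1) * l ≤ K * Real.log (η * Z / 4) := by
      have h3 : η * l / 400 * (400 * (A + 1) / η) ≤ K * Real.log (η * Z / 4) :=
        mul_le_mul hK3 h1 (by positivity) (Nat.cast_nonneg K)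
      have h4 : η * l / 400 * (400 * (A + 1) / η) = (A + 1) * l := by
        field_simp
      rwa [h4] at h3
    have h5 : (2 : ℝ) ≤ Real.exp l := by
      have := Real.add_one_le_exp l
      linarith
    calc 2 * Real.exp ((K : ℝ) * -Real.log (η * Z / 4)) ≤
          Real.exp l * Real.exp (-((A + 1) * l)) := by
          refine mul_le_mul h5 (Real.exp_le_exp.2 ?_) (by positivity) (by positivity)
          rw [mul_neg]
          linarith
      _ = Real.exp (-(A * l)) := by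
          rw [← Real.exp_add]
          congr 1
          ring
  · rw [hWc, div_le_iff₀ (by positivity), ← Real.exp_add]
    have h1 : ((L + 1 : ℕ) : ℝ) ≤ Real.exp (2 * l) := by
      have e : Real.exp (2 * l) = L * L := by
        rw [two_mul, Real.exp_add, hl]
      rw [e]
      have h3 : (3 : ℝ) ≤ L := by exact_mod_cast hL
      push_cast
      nlinarith
    refine h1.trans (Real.exp_le_exp.2 ?_)
    have : (A + 3) * l ≤ a * l := mul_le_mul_of_nonneg_right ha hl0.le
    nlinarith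

theorem pf_PA3 : T_PA3 := by
  intro A η hA hη hη1
  obtain ⟨a, ha⟩ := exists_nat_ge (A + 3)
  have t1 : Tendsto (fun l : ℝ => η * l) atTop atTop := tendsto_id.const_mul_atTop hη
  have F2 : ∀ᶠ l : ℝ in atTop, 800 ≤ η * l := t1.eventually_ge_atTop _
  have hlog2 : 0 < Real.log 2 := Real.log_pos (by norm_num)
  have t0 : Tendsto (fun l : ℝ => Real.exp (l / 2)) atTop atTop :=
    Real.tendsto_exp_atTop.comp (tendsto_id.atTop_div_const (by norm_num))
  have F3 : ∀ᶠ l : ℝ in atTop, Real.exp (l / 2) + 10 ≤ η * Real.exp l := by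
    filter_upwards [t0.eventually_ge_atTop (2 / η), t0.eventually_ge_atTop 10] with l h1 h2
    rw [div_le_iff₀ hη] at h1
    have h3 : Real.exp l = Real.exp (l / 2) * Real.exp (l / 2) := by
      rw [← Real.exp_add]
      congr 1
      ring
    rw [h3]
    nlinarith
  have F4 : ∀ᶠ l : ℝ in atTop, a * l ^ 2 ≤ Real.exp l * Real.log 2 := by
    filter_upwards [(Real.tendsto_exp_div_pow_atTop 2).eventually_ge_atTop (a / Real.log 2),
      eventually_ge_atTop (4 : ℝ)] with l h1 h2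
    rw [le_div_iff₀ (by positivity)] at h1
    have h3 : (a : ℝ) / Real.log 2 * l ^ 2 * Real.log 2 = a * l ^ 2 := by
      field_simp
    rw [← h3]
    exact mul_le_mul_of_nonneg_right h1 hlog2.le
  have F6 : ∀ᶠ l : ℝ in atTop, 400 * (A + 1) / η ≤ Real.log (η * (l / 50 - 1) / 4) := by
    have t2 : Tendsto (fun l : ℝ => η * (l / 50 - 1) / 4) atTop atTop := by
      have t3 : Tendsto (fun l : ℝ => l / 50 - 1) atTop atTop :=
        tendsto_atTop_add_const_right _ (-1) (tendsto_id.atTop_div_const (by norm_num))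
      exact (t3.const_mul_atTop hη).atTop_div_const (by norm_num)
    exact (Real.tendsto_log_atTop.comp t2).eventually_ge_atTop _
  have tL : Tendsto (fun x : ℕ => Nat.log 2 x) atTop atTop := by
    rw [tendsto_atTop]
    intro n
    filter_upwards [eventually_ge_atTop (2 ^ n)] with x hx
    exact Nat.le_log_of_pow_le (by norm_num) hx
  have tl : Tendsto (fun x : ℕ => Real.log (Nat.log 2 x : ℕ)) atTop atTop :=
    Real.tendsto_log_atTop.comp (tendsto_natCast_atTop_atTop.comp tL)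
  have F8 : ∀ᶠ x : ℕ in atTop, 4 * Real.sqrt x ≤ x / Real.log x ^ A := by
    have h1 := (isLittleO_log_rpow_rpow_atTop A (show (0 : ℝ) < 1 / 2 by norm_num)).bound
      (show (0 : ℝ) < 1 / 4 by norm_num)
    have h2 := (tendsto_natCast_atTop_atTop (R := ℝ)).eventually h1
    filter_upwards [h2, eventually_ge_atTop 3] with x h3 h4
    have hx3 : (3 : ℝ) ≤ x := by exact_mod_cast h4
    have hlx : 0 < Real.log x := Real.log_pos (by linarith)
    have hpos : 0 < Real.log x ^ A := Real.rpow_pos_of_pos hlx A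
    rw [Real.norm_of_nonneg hpos.le, Real.norm_of_nonneg (by positivity),
      ← Real.sqrt_eq_rpow] at h3
    rw [le_div_iff₀ hpos]
    have h5 : Real.sqrt x * Real.sqrt x = x := Real.mul_self_sqrt (by linarith)
    have h6 : 0 ≤ Real.sqrt x := Real.sqrt_nonneg _
    nlinarith
  obtain ⟨x₀, hx₀⟩ := eventually_atTop.1 ((tl.eventually (F2.and (F3.and (F4.and F6)))).and F8)
  refine ⟨max x₀ 8, le_max_of_le_right (by norm_num), fun x hx => ?_⟩
  obtain ⟨⟨f2, f3, f4, f6⟩, f8⟩ := hx₀ x ((le_max_left _ _).trans hx)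
  have hx8 : 8 ≤ x := (le_max_right _ _).trans hx
  have hL3 : 3 ≤ Nat.log 2 x := Nat.le_log_of_pow_le (by norm_num) (by simpa using hx8)
  have hlx := pa1_log x hx8
  have hL0 : (0 : ℝ) < (Nat.log 2 x : ℕ) := by
    have : 0 < Nat.log 2 x := by omega
    exact_mod_cast this
  obtain ⟨Z, K, W, g1, g2, g3, g4, g5, g6, g7, g8, g9⟩ :=
    pa3_core A η (Real.log (Nat.log 2 x : ℕ)) a (Nat.log 2 x) hA hη hη1 ha hL3
      (Real.exp_log hL0) f2 f3 f4 f6
  have hx8' : (8 : ℝ) ≤ x := by exact_mod_cast hx8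
  have hlx0 : 0 < Real.log x := Real.log_pos (by linarith)
  have hinv : Real.exp (-(A * Real.log (Nat.log 2 x : ℕ))) ≤ 1 / Real.log x ^ A := by
    have e1 : Real.exp (A * Real.log (Nat.log 2 x : ℕ)) = ((Nat.log 2 x : ℕ) : ℝ) ^ A := by
      rw [Real.rpow_def_of_pos hL0, mul_comm]
    rw [Real.exp_neg, e1, ← one_div]
    exact one_div_le_one_div_of_le (Real.rpow_pos_of_pos hlx0 A)
      (Real.rpow_le_rpow hlx0.le hlx hA.le)
  exact ⟨Z, K, W, g1, g2, g3, g4, g5, g6, g7.trans (Nat.pow_log_le_self 2 (by omega)),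
    g8.trans hinv, g9.trans hinv, f8⟩

end Pool.Agent.H4.SF
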