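import Pool.Agent.H3.SF.Targets
import Pool.Agent.H14.SQ.ORD
import Pool.Agent.H14.SQ.SEM
import Pool.Agent.H35.SQ.TL

/-!
# Board `spw_modules`, row W3: comparison in the mean
-/

set_option autoImplicit false

open Pool.Agent.H3.SF Pool.Agent.H99.SQ
open Finset Filter Topology

namespace Pool.Agent.H4.SF

open Classical in
/-- the number of the exponents with a large prime -/
noncomputable def w3k (Y L n : ℕ) : ℕ :=
  ((range (L + 1)).filter fun l => 2 ^ l < n ∧ ∃ p, Y < p ∧ p ^ 2 ∣ n - 2 ^ l).card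

theorem w3_lt {n l : ℕ} (hn : Odd n) (h1 : 1 < n) : 2 ^ l < n ↔ l < Nat.log 2 n + 1 := by
  constructor
  · intro h
    have := Nat.le_log_of_pow_le (by norm_num) h.le
    omega
  · intro h
    have h2 : 2 ^ l ≤ 2 ^ Nat.log 2 n := Nat.pow_le_pow_right (by norm_num) (by omega)
    have h3 : 2 ^ Nat.log 2 n ≤ n := Nat.pow_log_le_self 2 (by omega)
    rcases (h2.trans h3).lt_or_eq with h4 | h4
    · exact h4
    · exfalso
      rcases Nat.eq_zero_or_pos l with h5 | h5
      · rw [h5, pow_zero] at h4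
        omega
      · rw [← h4] at hn
        have : Even (2 ^ l) := (Nat.even_pow.2 ⟨even_two, by omega⟩)
        exact (Nat.not_odd_iff_even.2 this) hn

theorem w3_term (hUUF : T_UUF) (Y L n : ℕ) (hn : Odd n) (h1 : 1 < n) (hL : Nat.log 2 n ≤ L) :
    |(rep n : ℝ) - UU (FF Y) n * Nat.log 2 n| ≤ MP (FF Y) + 1 + w3k Y L n ∧
      rep n ≤ Nat.log 2 n + 1 := by
  classical
  have hSEM := Pool.Agent.H14.SQ.pf_SEM
  have hORD := Pool.Agent.H14.SQ.pf_ORD
  have hOP : ∀ p ∈ FF Y, OP p := by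
    intro p hp
    exact (Finset.mem_filter.1 hp).2
  have hM : 0 < MP (FF Y) := Finset.prod_pos fun p hp => (hORD p (hOP p hp)).1
  obtain ⟨⟨u0, u1⟩, hU, _, _⟩ := hUUF (FF Y) n hOP
  have hU1 := hU (MP (FF Y)) (Nat.log 2 n + 1) hM fun p hp => Finset.dvd_prod_of_mem mm hp
  set Uc : ℕ := UC (FF Y) n (Nat.log 2 n + 1) with hUc
  have hUcard : Uc = ((range (Nat.log 2 n + 1)).filter fun l => ∀ p ∈ FF Y, ¬ Kill p n l).card := by
    rw [hUc, UC]
  have hfin : (RR n).Finite := by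
    refine (Finset.finite_toSet (range (Nat.log 2 n + 1))).subset fun l hl => ?_
    rw [Finset.mem_coe, Finset.mem_range]
    exact (w3_lt hn h1).1 hl.1
  -- upper bound
  have hup : rep n ≤ Uc := by
    rw [hUcard, rep, ← Set.ncard_coe_finset]
    refine Set.ncard_le_ncard (fun l hl => ?_) (Finset.finite_toSet _)
    rw [Finset.mem_coe, Finset.mem_filter, Finset.mem_range]
    exact ⟨(w3_lt hn h1).1 hl.1, fun p hp hk => hSEM.2.2.2 n l p (hOP p hp) hk hl⟩
  have hUle : Uc ≤ Nat.log 2 n + 1 := by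
    rw [hUcard]
    refine (Finset.card_filter_le _ _).trans ?_
    rw [Finset.card_range]
  -- lower bound
  have hlow : Uc ≤ 1 + rep n + w3k Y L n := by
    have hsub : ((range (Nat.log 2 n + 1)).filter fun l => ∀ p ∈ FF Y, ¬ Kill p n l) ⊆
        ({0} ∪ hfin.toFinset) ∪
          ((range (L + 1)).filter fun l => 2 ^ l < n ∧ ∃ p, Y < p ∧ p ^ 2 ∣ n - 2 ^ l) := by
      intro l hl
      rw [Finset.mem_filter, Finset.mem_range] at hl
      rw [Finset.mem_union, Finset.mem_union, Finset.mem_singleton, Set.Finite.mem_toFinset,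
        Finset.mem_filter, Finset.mem_range]
      by_cases h0 : l = 0
      · exact Or.inl (Or.inl h0)
      by_cases hR : l ∈ RR n
      · exact Or.inl (Or.inr hR)
      right
      have hlt : 2 ^ l < n := (w3_lt hn h1).2 hl.1
      obtain ⟨p, hp, _, hk⟩ := hSEM.2.2.1 n l hn (by omega) hlt hR
      refine ⟨by omega, hlt, p, ?_, (hSEM.1 p n l hlt.le).1 hk⟩
      by_contra hpY
      refine hl.2 p ?_ hk
      rw [FF, Finset.mem_filter, Finset.mem_range]
      exact ⟨by omega, hp⟩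
    rw [hUcard]
    refine (Finset.card_le_card hsub).trans ?_
    refine (Finset.card_union_le _ _).trans ?_
    have h2 : (({0} : Finset ℕ) ∪ hfin.toFinset).card ≤ 1 + rep n := by
      refine (Finset.card_union_le _ _).trans ?_
      rw [Finset.card_singleton, rep, Set.ncard_eq_toFinset_card _ hfin]
    have h3 : ((range (L + 1)).filter fun l => 2 ^ l < n ∧ ∃ p, Y < p ∧ p ^ 2 ∣ n - 2 ^ l).card =
      w3k Y L n := rfl
    rw [h3]
    omega
  refine ⟨?_, hup.trans hUle⟩
  have hup' : (rep n : ℝ) ≤ Uc := by exact_mod_cast hup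
  have hlow' : (Uc : ℝ) ≤ 1 + rep n + w3k Y L n := by exact_mod_cast hlow
  have hk0 : (0 : ℝ) ≤ w3k Y L n := Nat.cast_nonneg _
  have h5 := abs_le.1 hU1
  push_cast at h5
  rw [abs_le]
  constructor
  · linarith [h5.1]
  · linarith [h5.2]

theorem w3_point (hUUF : T_UUF) (Y L n : ℕ) (hn : Odd n) (hL : Nat.log 2 n ≤ L) (hL2 : 2 ≤ L) :
    |(rep n : ℝ) / (Real.log n / Real.log 2) - UU (FF Y) n| ≤
      (if 2 * Nat.log 2 n < L then (3 : ℝ) else 0) + 2 / L * (MP (FF Y) + 2 + w3k Y L n) := by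
  have hOP : ∀ p ∈ FF Y, OP p := by
    intro p hp
    exact (Finset.mem_filter.1 hp).2
  obtain ⟨⟨u0, u1⟩, _⟩ := hUUF (FF Y) n hOP
  have hL0 : (0 : ℝ) < L := by
    have : 0 < L := by omega
    exact_mod_cast this
  have hsec : 0 ≤ 2 / (L : ℝ) * (MP (FF Y) + 2 + w3k Y L n) := by positivity
  by_cases h1 : n = 1
  · have hr : rep n = 0 := by
      rw [rep, h1]
      have : RR 1 = ∅ := by
        apply Set.eq_empty_of_forall_notMem
        intro l hl
        have h2 := hl.1
        have h3 := Nat.one_le_two_pow (n := l)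
        omega
      rw [this, Set.ncard_empty]
    rw [hr, Nat.cast_zero, zero_div, zero_sub, abs_neg, abs_of_nonneg u0, h1, Nat.log_one_right,
      if_pos (by omega)]
    rw [h1] at u1 hsec
    linarith
  · have hn1 : 1 < n := by
      rcases hn with ⟨m, hm⟩
      omega
    obtain ⟨ht1, ht2⟩ := w3_term hUUF Y L n hn hn1 hL
    set Λ := Nat.log 2 n with hΛ
    have hΛ1 : 1 ≤ Λ := Nat.le_log_of_pow_le (by norm_num) (by omega)
    have hΛ0 : (1 : ℝ) ≤ Λ := by exact_mod_cast hΛ1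
    have hlog2 : 0 < Real.log 2 := Real.log_pos (by norm_num)
    have hn0 : (0 : ℝ) < n := by
      have : 0 < n := by omega
      exact_mod_cast this
    have hlam1 : (Λ : ℝ) ≤ Real.log n / Real.log 2 := by
      rw [le_div_iff₀ hlog2, ← Real.log_pow]
      apply Real.log_le_log (by positivity)
      exact_mod_cast Nat.pow_log_le_self 2 (by omega)
    have hlam2 : Real.log n / Real.log 2 ≤ Λ + 1 := by
      rw [div_le_iff₀ hlog2]
      have h2 : ((Λ : ℝ) + 1) * Real.log 2 = Real.log ((2 : ℝ) ^ (Λ + 1)) := by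
        rw [Real.log_pow]
        push_cast
        ring
      rw [h2]
      apply Real.log_le_log hn0
      exact_mod_cast (Nat.lt_pow_succ_log_self (by norm_num) n).le
    set lam := Real.log n / Real.log 2 with hlam
    have hlam0 : 0 < lam := by linarith
    have ht2' : (rep n : ℝ) ≤ Λ + 1 := by exact_mod_cast ht2
    have hr0 : (0 : ℝ) ≤ rep n := Nat.cast_nonneg _
    by_cases hc : 2 * Λ < L
    · rw [if_pos hc]
      have h3 : (rep n : ℝ) / lam ≤ 2 := by
        rw [div_le_iff₀ hlam0]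
        linarith
      have h4 : 0 ≤ (rep n : ℝ) / lam := by positivity
      have h5 : |(rep n : ℝ) / lam - UU (FF Y) n| ≤ 3 := by
        rw [abs_le]
        constructor <;> linarith
      linarith
    · rw [if_neg hc, zero_add]
      have e1 : (rep n : ℝ) / lam - UU (FF Y) n =
          (((rep n : ℝ) - UU (FF Y) n * Λ) - UU (FF Y) n * (lam - Λ)) / lam := by
        field_simp
        ring
      have h3 : |((rep n : ℝ) - UU (FF Y) n * Λ) - UU (FF Y) n * (lam - Λ)| ≤
          MP (FF Y) + 2 + w3k Y L n := by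
        have h4 : |UU (FF Y) n * (lam - Λ)| ≤ 1 := by
          rw [abs_of_nonneg (mul_nonneg u0 (by linarith))]
          nlinarith
        have h5 := abs_sub ((rep n : ℝ) - UU (FF Y) n * Λ) (UU (FF Y) n * (lam - Λ))
        linarith
      rw [e1, abs_div, abs_of_pos hlam0, div_le_iff₀ hlam0]
      refine h3.trans ?_
      have hLl : (L : ℝ) ≤ 2 * lam := by
        have : (L : ℝ) ≤ 2 * Λ := by exact_mod_cast (not_lt.1 hc)
        linarith
      have h6 : (1 : ℝ) ≤ 2 / L * lam := by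
        rw [div_mul_eq_mul_div, le_div_iff₀ hL0]
        linarith
      have h7 : (0 : ℝ) ≤ MP (FF Y) + 2 + w3k Y L n := by positivity
      calc (MP (FF Y) : ℝ) + 2 + w3k Y L n ≤ (2 / L * lam) * (MP (FF Y) + 2 + w3k Y L n) := by
            nlinarith
        _ = _ := by ring

theorem w3_pairs (Y x : ℕ) (hY : 1 ≤ Y) (hx : 1 ≤ x) :
    (∑ n ∈ (range (x + 1)).filter Odd, (w3k Y (Nat.log 2 x) n : ℝ)) ≤
      (Nat.log 2 x + 1) * (x / Y) := by
  classical
  have h1 := Pool.Agent.H35.SQ.TL.pf_TL Y x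
    ((((range (x + 1)).filter Odd) ×ˢ (range (Nat.log 2 x + 1))).filter fun q =>
      2 ^ q.2 < q.1 ∧ ∃ p, Y < p ∧ p ^ 2 ∣ q.1 - 2 ^ q.2) hY hx (by
      intro q hq
      rw [Finset.mem_filter, Finset.mem_product, Finset.mem_filter, Finset.mem_range] at hq
      exact ⟨by omega, hq.2.1, hq.2.2⟩)
  refine le_trans (le_of_eq ?_) h1
  rw [Finset.card_filter, Finset.sum_product]
  push_cast
  refine Finset.sum_congr rfl fun n _ => ?_
  rw [w3k, Finset.card_filter]
  push_cast
  rfl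

theorem w3_small (x : ℕ) (hx : 1 ≤ x) :
    (((range (x + 1)).filter Odd).filter fun n => 2 * Nat.log 2 n < Nat.log 2 x).card ≤
      Nat.sqrt (2 * x) + 1 := by
  classical
  rw [← Finset.card_range (Nat.sqrt (2 * x) + 1)]
  refine Finset.card_le_card fun n hn => ?_
  rw [Finset.mem_filter, Finset.mem_filter] at hn
  rw [Finset.mem_range, Nat.lt_succ_iff, Nat.le_sqrt]
  have h1 : n < 2 ^ (Nat.log 2 n + 1) := Nat.lt_pow_succ_log_self (by norm_num) n
  have h2 : 2 ^ Nat.log 2 x ≤ x := Nat.pow_log_le_self 2 (by omega)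
  have h3 : 2 ^ (Nat.log 2 n + 1) * 2 ^ (Nat.log 2 n + 1) ≤ 2 * x := by
    rw [← pow_add]
    calc 2 ^ (Nat.log 2 n + 1 + (Nat.log 2 n + 1)) ≤ 2 ^ (Nat.log 2 x + 1) :=
          Nat.pow_le_pow_right (by norm_num) (by omega)
      _ = 2 * 2 ^ Nat.log 2 x := by rw [pow_succ, mul_comm]
      _ ≤ 2 * x := Nat.mul_le_mul_left 2 h2
  exact (Nat.mul_le_mul h1.le h1.le).trans h3

theorem pf_W3 (hUUF : T_UUF) : T_W3 := by
  classical
  intro Y hY
  set M := MP (FF Y) with hM
  have tL : Tendsto (fun x : ℕ => Nat.log 2 x) atTop atTop := by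
    rw [tendsto_atTop]
    intro n
    filter_upwards [eventually_ge_atTop (2 ^ n)] with x hx
    exact Nat.le_log_of_pow_le (by norm_num) hx
  filter_upwards [tL.eventually_ge_atTop (4 * (M + 2) * Y + 2), eventually_ge_atTop (72 * Y ^ 2),
    eventually_ge_atTop 1] with x hxL hxY hx1
  set L := Nat.log 2 x with hL
  have hL2 : 2 ≤ L := le_trans (by omega) hxL
  have hpt : ∀ n ∈ (range (x + 1)).filter Odd,
      |(rep n : ℝ) / (Real.log n / Real.log 2) - UU (FF Y) n| ≤
      (if 2 * Nat.log 2 n < L then (3 : ℝ) else 0) + 2 / L * (M + 2 + w3k Y L n) := by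
    intro n hn
    rw [Finset.mem_filter, Finset.mem_range] at hn
    exact w3_point hUUF Y L n hn.2 (Nat.log_mono_right (by omega)) hL2
  refine (Finset.sum_le_sum hpt).trans ?_
  rw [Finset.sum_add_distrib, ← Finset.mul_sum, Finset.sum_add_distrib, Finset.sum_const,
    ← Finset.sum_filter, Finset.sum_const, nsmul_eq_mul, nsmul_eq_mul]
  have h1 := w3_pairs Y x hY hx1
  rw [← hL] at h1
  have h2 : ((((range (x + 1)).filter Odd).filter fun n => 2 * Nat.log 2 n < L).card : ℝ) ≤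
      Nat.sqrt (2 * x) + 1 := by exact_mod_cast w3_small x hx1
  have h3 : (((range (x + 1)).filter Odd).card : ℝ) ≤ x + 1 := by
    have := Finset.card_filter_le (range (x + 1)) Odd
    rw [Finset.card_range] at this
    exact_mod_cast this
  have hx1' : (1 : ℝ) ≤ x := by exact_mod_cast hx1
  have hY' : (1 : ℝ) ≤ Y := by exact_mod_cast hY
  have hL2' : (2 : ℝ) ≤ L := by exact_mod_cast hL2
  have hL0 : (0 : ℝ) < L := by linarith
  have hY0 : (0 : ℝ) < Y := by linarith
  -- the square root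
  have h4 : ((Nat.sqrt (2 * x) : ℝ) + 1) * 3 ≤ x / Y := by
    have h5 : Nat.sqrt (2 * x) * Nat.sqrt (2 * x) ≤ 2 * x := Nat.sqrt_le (2 * x)
    have h5' : (Nat.sqrt (2 * x) : ℝ) * Nat.sqrt (2 * x) ≤ 2 * x := by exact_mod_cast h5
    have hxY' : (72 : ℝ) * Y ^ 2 ≤ x := by exact_mod_cast hxY
    set s : ℝ := (Nat.sqrt (2 * x) : ℝ) with hs
    have hs0 : 0 ≤ s := Nat.cast_nonneg _
    have h6 : 6 * Y * s ≤ x := by
      rw [← pow_le_pow_iff_left₀ (n := 2) (by positivity) (by linarith) (by norm_num)]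
      calc (6 * (Y : ℝ) * s) ^ 2 = 36 * (Y : ℝ) ^ 2 * (s * s) := by ring
        _ ≤ 36 * (Y : ℝ) ^ 2 * (2 * x) := mul_le_mul_of_nonneg_left h5' (by positivity)
        _ = 72 * (Y : ℝ) ^ 2 * x := by ring
        _ ≤ (x : ℝ) * x := mul_le_mul_of_nonneg_right hxY' (by linarith)
        _ = (x : ℝ) ^ 2 := by ring
    rw [le_div_iff₀ hY0]
    have h7 : 6 * (Y : ℝ) ≤ x := by nlinarith
    linarith
  -- the constant term
  have h8 : 2 / (L : ℝ) * ((x + 1) * (M + 2)) ≤ x / Y := by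
    have hLM : 4 * ((M : ℝ) + 2) * Y ≤ L := by
      have : 4 * (M + 2) * Y ≤ L := by omega
      exact_mod_cast this
    rw [div_mul_eq_mul_div, div_le_div_iff₀ hL0 hY0]
    have hM0 : (0 : ℝ) ≤ M := Nat.cast_nonneg _
    calc 2 * (((x : ℝ) + 1) * (M + 2)) * Y ≤ 2 * ((x + x) * (M + 2)) * Y := by
          gcongr
      _ = x * (4 * (M + 2) * Y) := by ring
      _ ≤ x * L := mul_le_mul_of_nonneg_left hLM (by linarith)
  have h9 : 2 / (L : ℝ) * ((L + 1) * (x / Y)) ≤ 3 * (x / Y) := by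
    have h10 : 2 / (L : ℝ) * (L + 1) ≤ 3 := by
      rw [div_mul_eq_mul_div, div_le_iff₀ hL0]
      linarith
    rw [← mul_assoc]
    exact mul_le_mul_of_nonneg_right h10 (by positivity)
  have h11 : 2 / (L : ℝ) * (((((range (x + 1)).filter Odd).card : ℝ) * (M + 2)) +
      ∑ n ∈ (range (x + 1)).filter Odd, (w3k Y L n : ℝ)) ≤
      2 / (L : ℝ) * ((x + 1) * (M + 2) + (L + 1) * (x / Y)) := by
    refine mul_le_mul_of_nonneg_left ?_ (by positivity)
    refine add_le_add (mul_le_mul_of_nonneg_right h3 (by positivity)) h1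
  have h12 : 2 / (L : ℝ) * ((x + 1) * (M + 2) + (L + 1) * (x / Y)) =
      2 / (L : ℝ) * ((x + 1) * (M + 2)) + 2 / (L : ℝ) * ((L + 1) * (x / Y)) := by ring
  have h13 : ((((range (x + 1)).filter Odd).filter fun n => 2 * Nat.log 2 n < L).card : ℝ) * 3 ≤
      (Nat.sqrt (2 * x) + 1) * 3 := mul_le_mul_of_nonneg_right h2 (by norm_num)
  have h14 : (5 : ℝ) * x / Y = x / Y + x / Y + 3 * (x / Y) := by ring
  rw [h14]
  linarith

end Pool.Agent.H4.SF
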