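import Pool.Agent.H84.SF.Fin

/-!
# Row SFZ: the surface with the ideal `I`
-/

set_option autoImplicit false

namespace Pool.Agent.H4.SF

open MvPolynomial SC
open Pool.Agent.H84.SF
open Pool.Agent.H27.LV (ge deg poleOrder canDeg DegreeBound)
open Pool.Agent.H84.SM (cr dt dp)
open Pool.Agent.H84.SL (pd)
open Pool.Agent.H3.SF (Itg Bb BB Hm eu grd hes Sfc Crd Crf Prm)
open Pool.Agent.H17.SD (Prj Smo HRel PA)

/-- the value at the generic point -/
theorem aev {k τ : Type} [Field k] (I : Ideal (MvPolynomial τ k)) [I.IsPrime]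
    (f : MvPolynomial τ k) :
    aeval (fun s : τ => algebraMap (MvPolynomial τ k ⧸ I) (FractionRing (MvPolynomial τ k ⧸ I))
      (Ideal.Quotient.mk I (X s))) f =
    algebraMap (MvPolynomial τ k ⧸ I) (FractionRing (MvPolynomial τ k ⧸ I))
      (Ideal.Quotient.mk I f) := by
  induction f using MvPolynomial.induction_on with
  | C a =>
    rw [algHom_C]
    have h1 : Ideal.Quotient.mk I (C a : MvPolynomial τ k) =
        algebraMap k (MvPolynomial τ k ⧸ I) a := rfl
    rw [h1, ← IsScalarTower.algebraMap_apply]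
  | add p q hp hq => rw [map_add, map_add, map_add, hp, hq]
  | mul_X p s hp => rw [map_mul, map_mul, map_mul, hp, aeval_X]

theorem aev0 {k τ : Type} [Field k] (I : Ideal (MvPolynomial τ k)) [I.IsPrime]
    (f : MvPolynomial τ k) :
    aeval (fun s : τ => algebraMap (MvPolynomial τ k ⧸ I) (FractionRing (MvPolynomial τ k ⧸ I))
      (Ideal.Quotient.mk I (X s))) f = 0 ↔ f ∈ I := by
  rw [aev]
  constructor
  · intro h
    have h1 : Ideal.Quotient.mk I f = 0 :=
      (IsFractionRing.injective (MvPolynomial τ k ⧸ I)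
        (FractionRing (MvPolynomial τ k ⧸ I))) (h.trans (map_zero _).symm)
    exact Ideal.Quotient.eq_zero_iff_mem.1 h1
  · intro h
    rw [Ideal.Quotient.eq_zero_iff_mem.2 h, map_zero]

/-- integrality over the image of a ring -/
theorem int_iff {R F A : Type} [CommRing R] [Field F] [CommRing A] (f : R →+* F) (i : A →+* F)
    (hi : Function.Injective i) (h : ∀ y : F, (∃ r, f r = y) ↔ ∃ a, i a = y) (a : F) :
    f.IsIntegralElem a ↔ i.IsIntegralElem a := by
  have h1 : ∀ r, ∃ b, i b = f r := fun r => (h (f r)).1 ⟨r, rfl⟩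
  choose g hg using h1
  have g0 : g 0 = 0 := hi (by rw [hg, map_zero, map_zero])
  have g1 : g 1 = 1 := hi (by rw [hg, map_one, map_one])
  have ga : ∀ x y, g (x + y) = g x + g y := fun x y =>
    hi (by rw [hg, map_add, map_add, hg, hg])
  have gm : ∀ x y, g (x * y) = g x * g y := fun x y =>
    hi (by rw [hg, map_mul, map_mul, hg, hg])
  obtain ⟨G, hG⟩ : ∃ G : R →+* A, ∀ r, G r = g r :=
    ⟨{ toFun := g, map_one' := g1, map_mul' := gm, map_zero' := g0, map_add' := ga },
      fun r => rfl⟩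
  have hcomp : i.comp G = f := by
    ext r
    rw [RingHom.comp_apply, hG, hg]
  have hsur : Function.Surjective G := by
    intro b
    obtain ⟨r, hr⟩ := (h (i b)).2 ⟨b, rfl⟩
    exact ⟨r, hi (by rw [hG, hg, hr])⟩
  constructor
  · rintro ⟨p, hp, he⟩
    refine ⟨p.map G, hp.map G, ?_⟩
    rw [Polynomial.eval₂_map, hcomp]
    exact he
  · rintro ⟨p, hp, he⟩
    have hnt : Nontrivial A := ⟨0, 1, fun h => by
      have h3 := congrArg i h
      rw [map_zero, map_one] at h3
      exact zero_ne_one h3⟩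
    have h2 : p ∈ Polynomial.lifts G := by
      rw [Polynomial.mem_lifts]
      exact Polynomial.map_surjective G hsur p
    obtain ⟨q, hq, -, hq2⟩ := Polynomial.lifts_and_degree_eq_and_monic h2 hp
    refine ⟨q, hq2, ?_⟩
    rw [← hcomp, ← Polynomial.eval₂_map, hq]
    exact he

theorem int_PA {k τ : Type} [Field k] (I : Ideal (MvPolynomial τ k)) [I.IsPrime]
    (a : FractionRing (MvPolynomial τ k ⧸ I)) :
    IsIntegral (MvPolynomial τ k ⧸ I) a ↔
    IsIntegral (PA k (fun s : τ => algebraMap (MvPolynomial τ k ⧸ I)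
      (FractionRing (MvPolynomial τ k ⧸ I)) (Ideal.Quotient.mk I (X s)))) a := by
  refine int_iff _ _ (fun x y h => Subtype.ext h) ?_ a
  intro y
  have h1 : (∃ b : PA k (fun s : τ => algebraMap (MvPolynomial τ k ⧸ I)
      (FractionRing (MvPolynomial τ k ⧸ I)) (Ideal.Quotient.mk I (X s))),
      algebraMap _ (FractionRing (MvPolynomial τ k ⧸ I)) b = y) ↔
      y ∈ Algebra.adjoin k (Set.range (fun s : τ => algebraMap (MvPolynomial τ k ⧸ I)
        (FractionRing (MvPolynomial τ k ⧸ I)) (Ideal.Quotient.mk I (X s)))) :=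
    ⟨fun ⟨b, hb⟩ => hb ▸ b.2, fun h => ⟨⟨y, h⟩, rfl⟩⟩
  rw [h1, Algebra.adjoin_range_eq_range_aeval]
  constructor
  · rintro ⟨r, hr⟩
    obtain ⟨f, rfl⟩ := Ideal.Quotient.mk_surjective r
    exact ⟨f, (aev I f).trans hr⟩
  · rintro ⟨f, hf⟩
    exact ⟨Ideal.Quotient.mk I f, (aev I f).symm.trans hf⟩

theorem pf_SFZ (hFRC : Pool.Agent.H17.SD.T_FRC) (hSFC : Pool.Agent.H17.SD.T_SFC)
    (hCRV : Pool.Agent.H17.SD.T_CRV) (hFBZ : T_FBZ) (hORZ : T_ORZ) : T_SFZ := by
  intro k τ _ _ _ _ I _ hI htr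
  obtain ⟨Xf, hXf⟩ : ∃ Xf : τ → FractionRing (MvPolynomial τ k ⧸ I),
    Xf = fun s : τ => algebraMap (MvPolynomial τ k ⧸ I) (FractionRing (MvPolynomial τ k ⧸ I))
      (Ideal.Quotient.mk I (X s)) := ⟨_, rfl⟩
  have hcone : Pool.Agent.H17.SD.Cone k Xf := by
    rw [hXf]
    exact hFRC k τ I hI htr
  have hae : ∀ f : MvPolynomial τ k, aeval Xf f =
      algebraMap (MvPolynomial τ k ⧸ I) (FractionRing (MvPolynomial τ k ⧸ I))
        (Ideal.Quotient.mk I f) := by
    rw [hXf]
    exact aev I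
  have ha0 : ∀ f : MvPolynomial τ k, aeval Xf f = 0 ↔ f ∈ I := by
    rw [hXf]
    exact aev0 I
  have hint : ∀ a : FractionRing (MvPolynomial τ k ⧸ I), IsIntegral (MvPolynomial τ k ⧸ I) a ↔ IsIntegral (PA k Xf) a := by
    rw [hXf]
    exact int_PA I
  obtain ⟨u, θ, dd, δ, j0, c0, J, hsfc, hprj, -⟩ := hSFC k _ τ Xf hcone
  have hc : ∀ l, ∃ c : τ → k, ∑ s, c s • Xf s = u l := fun l =>
    (Submodule.mem_span_range_iff_exists_fun k).1 (hprj.ulin l)
  choose c hc using hc
  obtain ⟨m1, hm1⟩ := hFBZ δ j0 c0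
  refine ⟨max 1 m1, c, ?_, ?_⟩
  · intro Φ hΦ h
    rw [← ha0] at h
    have h1 : aeval Xf (aeval (lin c (X : τ → MvPolynomial τ k)) Φ) = aeval u Φ := by
      rw [← AlgHom.comp_apply, comp_aeval]
      congr 2
      funext l
      unfold lin
      rw [map_sum, ← hc l]
      refine Finset.sum_congr rfl fun s _ => ?_
      rw [map_smul, aeval_X]
    rw [h1] at h
    exact hΦ (hsfc.ind (by rw [h, map_zero]))
  · intro m G hm hG
    have hm2 : 1 ≤ m := le_trans (le_max_left _ _) hm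
    have hm3 : m1 ≤ m := le_trans (le_max_right _ _) hm
    refine ⟨hm2, ?_⟩
    have hsmo : Smo Xf G := by
      intro s hs h1 h2 y h3
      refine hG.smo s hs (fun f hf => h1 f ((ha0 f).2 hf)) h2 y fun i f hf => ?_
      rcases hf with hf | hf
      · exact h3 i f (Or.inl ((ha0 f).2 hf))
      · exact h3 i f (Or.inr hf)
    have hne : aeval Xf G ≠ 0 := fun h => hG.ne ((ha0 G).1 h)
    have hcrd : Crd u dd m (aeval Xf G) := by
      refine hCRV k _ τ Xf hcone u θ dd δ j0 c0 J hsfc hprj m G hm2 hG.hom hne hsmo ?_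
      intro a b h1 h2 h3
      rw [← hint] at h1 h2 h3
      have h4 := hG.prm a b (aeval Xf G) (hae G) h1 h2 h3
      rw [hint, hint] at h4
      exact h4
    have hsrd : SrD Xf u θ dd J δ j0 c0 c := ⟨hsfc, hprj, fun l => (hc l).symm⟩
    have hcvd : CvD Xf u dd m G := ⟨hG.hom, hcrd, hsmo⟩
    have hI2 := hm1 k _ τ Xf u θ dd J c hsrd m G hm3 hcvd
    have hker : RingHom.ker (aeval Xf : MvPolynomial τ k →ₐ[k]
        FractionRing (MvPolynomial τ k ⧸ I)) = I := by
      ext f
      rw [RingHom.mem_ker]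
      exact ha0 f
    rw [hker] at hI2
    exact hORZ k τ I G m hm2 hG.hom hI2

end Pool.Agent.H4.SF
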