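import Pool.Agent.H72.SF.VT

/-! The name of an elementary map gives an elementary map (module VA). -/

set_option linter.unusedVariables false

open Ordinal Cardinal Order Set
open scoped ZFSet

namespace SF.H4

open SF

theorem va_mem {σ G z : V} : z ∈ evF σ G ↔ z ∈ dm σ ∧ app σ z ∈ G := by
  unfold evF
  rw [ZFSet.mem_sep]

theorem va_dm {x y σ : V} (h : ZFSet.IsFunc x y σ) : dm σ = x := by
  ext z
  rw [mem_dm]
  constructor
  · rintro ⟨u, hu⟩
    exact (ZFSet.pair_mem_prod.1 (h.1 hu)).1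
  · intro hz
    exact ⟨_, pair_app_mem h hz⟩

theorem va_im {M : V → Prop} (k : ZFm M) {σ N x : V} (h1 : M σ) (h2 : M N) (h3 : M x) :
    M (imS N fun y => app σ (ZFSet.pair x y)) := by
  have h5 : Tm ZFm (fun _ v => imS (v 0) fun y => app (v 1) (ZFSet.pair (v 2) y)) :=
    Tm.image (g := fun _ u => app (u 2) (ZFSet.pair (u 3) (u 0))) (Tm.var 0)
      (Tm.app (Tm.var 2) (Tm.pair (Tm.var 3) (Tm.var 0)))
  exact h5.1 M k (cons N (cons σ fun _ => x)) (In.cons (In.cons (fun _ => h3) h1) h2)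

theorem va_ev {W : V → Prop} (k : ZFm W) {σ G : V} (h1 : W σ) (h2 : W G) : W (evF σ G) := by
  have h5 : Tm ZFm (fun _ v => (dm (v 0)).sep fun z => app (v 0) z ∈ v 1) := by
    exact (Tm.sep (R := fun _ v => app (v 1) (v 0) ∈ v 2)
      (Dfb.mem (Tm.app (Tm.var 1) (Tm.var 0)) (Tm.var 2)) (Tm.dm (Tm.var 0))).congr
      fun M k v hv => rfl
  exact h5.1 W k (cons σ fun _ => G) (In.cons (fun _ => h2) h1)

theorem va (hWF : T_WF) (hWG : T_WG) (hWH : T_WH) (hFI : T_FI) : T_VA := by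
  intro M B G N' N b σ k hMB hcba hgen hMN' hMN hMσ hMb hσ hbG
  obtain ⟨w1, w2, w3, -, w5, -⟩ := hWH M B G k hMB hcba hgen
  have hBne : B ≠ {∅} := by
    rintro h
    have h1 := w2 b hbG
    rw [h, ZFSet.mem_singleton] at h1
    exact h1.2 h1.1
  have hMp : M (pos B) := hWF.2.2.1.1 M k (fun _ => B) fun _ => hMB
  have hMi : M (incl B) := hWF.2.2.2.1.1 M k (fun _ => B) fun _ => hMB
  obtain ⟨kE, hsub, hEG⟩ := hFI M (pos B) (incl B) G k hMp hMi
    (hWG.2.2.1 M B hcba hBne) hgen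
  have hdm := va_dm hσ.func
  have hpair : ∀ x y, ZFSet.pair x y ∈ evF σ G ↔ x ∈ N' ∧ y ∈ N ∧ app σ (ZFSet.pair x y) ∈ G := by
    intro x y
    rw [va_mem, hdm, ZFSet.pair_mem_prod, and_assoc]
  have hfun : ZFSet.IsFunc N' N (evF σ G) := by
    refine ⟨fun z hz => ?_, fun x hx => ?_⟩
    · rw [va_mem, hdm] at hz
      exact hz.1
    · have h1 := (w5 (imS N fun y => app σ (ZFSet.pair x y)) b
        (va_im k hMσ hMN (k.trans _ hMN' x hx)) (by
          intro z hz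
          obtain ⟨y, hy, rfl⟩ := mem_imS.1 hz
          exact app_mem hσ.func (ZFSet.pair_mem_prod.2 ⟨hx, hy⟩)) (hσ.tot x hx)).1 hbG
      obtain ⟨s, hs, hsG⟩ := h1
      obtain ⟨y, hy, rfl⟩ := mem_imS.1 hs
      refine ⟨y, (hpair x y).2 ⟨hx, hy, hsG⟩, fun y' hy' => ?_⟩
      obtain ⟨-, hy'N, hy'G⟩ := (hpair x y').1 hy'
      by_contra hne
      have h2 := hσ.fn x hx y hy y' hy'N fun h => hne h.symm
      have h3 := w1 _ hsG _ hy'G
      rw [h2] at h3
      exact (w2 _ h3).2 rfl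
  refine ⟨⟨hfun, ?_⟩, va_ev kE (hsub _ hMσ) hEG, ?_⟩
  · intro φ v hv
    have hp : ∀ i, ZFSet.pair (v i) (app (evF σ G) (v i)) ∈ evF σ G := fun i =>
      pair_app_mem hfun (hv i)
    have hG : ∀ i, app σ (ZFSet.pair (v i) (app (evF σ G) (v i))) ∈ G := fun i =>
      ((hpair _ _).1 (hp i)).2.2
    have hlb : ∀ n : ℕ, ∃ x ∈ G, ∀ i ≤ n,
        x ⊆ app σ (ZFSet.pair (v i) (app (evF σ G) (v i))) := by
      intro n
      induction n with
      | zero =>
        refine ⟨_, hG 0, fun i hi => ?_⟩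
        obtain rfl : i = 0 := by omega
        exact fun z hz => hz
      | succ n ih =>
        obtain ⟨x, hx, hx2⟩ := ih
        refine ⟨_, w1 _ hx _ (hG (n + 1)), fun i hi z hz => ?_⟩
        rcases Nat.lt_or_ge n i with h | h
        · obtain rfl : i = n + 1 := by omega
          exact (ZFSet.mem_inter.1 hz).2
        · exact hx2 i h (ZFSet.mem_inter.1 hz).1
    obtain ⟨x, hxG, hx⟩ := hlb φ.bd
    obtain ⟨s, hs⟩ : ∃ s : V, s = (ZFSet.prod N' N).sep fun z => ∃ i ≤ φ.bd,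
      ZFSet.pair (v i) (app (evF σ G) (v i)) = z := ⟨_, rfl⟩
    have hmem : ∀ z, z ∈ s ↔ ∃ i ≤ φ.bd, ZFSet.pair (v i) (app (evF σ G) (v i)) = z := by
      intro z
      rw [hs, ZFSet.mem_sep]
      refine ⟨fun h => h.2, fun h => ⟨?_, h⟩⟩
      obtain ⟨i, -, rfl⟩ := h
      exact hfun.1 (hp i)
    have hPE := hσ.el s (fun z hz => by
        obtain ⟨i, -, rfl⟩ := (hmem z).1 hz
        exact hfun.1 (hp i)) (by
        refine ((Set.finite_Iic φ.bd).image
          fun i => ZFSet.pair (v i) (app (evF σ G) (v i))).subset fun z hz => ?_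
        obtain ⟨i, hi, rfl⟩ := (hmem z).1 hz
        exact ⟨i, hi, rfl⟩)
      ⟨x, (w2 x hxG).1, (w2 x hxG).2, fun z hz => by
        obtain ⟨i, hi, rfl⟩ := (hmem z).1 hz
        exact hx i hi⟩
    have h1 := hPE φ (fun i => (v (min i φ.bd), app (evF σ G) (v (min i φ.bd))))
      fun i => (hmem _).2 ⟨_, min_le_right _ _, rfl⟩
    have h2 : Sat (· ∈ N') φ v ↔ Sat (· ∈ N') φ fun i => v (min i φ.bd) :=
      satP_congr _ _ φ _ _ fun i hi => by rw [min_eq_left hi.le]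
    have h3 : (Sat (· ∈ N) φ fun i => app (evF σ G) (v i)) ↔
        Sat (· ∈ N) φ fun i => app (evF σ G) (v (min i φ.bd)) :=
      satP_congr _ _ φ _ _ fun i hi => by rw [min_eq_left hi.le]
    rw [h2, h3]
    exact h1
  · intro x hx y hy
    constructor
    · rintro rfl
      exact ((hpair _ _).1 (pair_app_mem hfun hx)).2.2
    · intro h
      exact app_eq (svl_of_isFunc hfun) ((hpair x y).2 ⟨hx, hy, h⟩)

end SF.H4
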