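import Pool.Agent.H72.SF.VT

/-! Generic filters and surjections (module VB). -/

set_option linter.unusedVariables false

open Ordinal Cardinal Order Set
open scoped ZFSet

namespace SF.H4

open SF

/-- the set `D1` of the proof is in the model -/
theorem vb_mem1 {W : V → Prop} (k : ZFm W) {mu D e r : V} (h1 : W mu) (h2 : W D) (h3 : W e)
    (h4 : W r) : W (mu.sep fun ξ => ∃ d ∈ D, ZFSet.pair (app e ξ) d ∈ r) := by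
  have h5 : Tm ZFm (fun _ v => (v 0).sep fun ξ => ∃ d ∈ v 1, ZFSet.pair (app (v 2) ξ) d ∈ v 3) := by
    refine (Tm.sep (R := fun _ v => ∃ d ∈ v 2, ZFSet.pair (app (v 3) (v 0)) d ∈ v 4) ?_
      (Tm.var 0)).congr fun M k v hv => rfl
    exact (Dfb.bex (R := fun _ v => ZFSet.pair (app (v 4) (v 1)) (v 0) ∈ v 5) ktr_zfm (Tm.var 2)
      (Dfb.pairMem (Tm.app (Tm.var 4) (Tm.var 1)) (Tm.var 0) (Tm.var 5))).congr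
      fun M k v hv => Iff.rfl
  exact h5.1 W k (cons mu (cons D (cons e fun _ => r)))
    (In.cons (In.cons (In.cons (fun _ => h4) h3) h2) h1)

/-- images of sets are in the model -/
theorem vb_mem2 {W : V → Prop} (k : ZFm W) {D e : V} (h2 : W D) (h3 : W e) :
    W (imS D fun x => app e x) := by
  have h5 : Tm ZFm (fun _ v => imS (v 0) fun x => app (v 1) x) :=
    Tm.image (g := fun _ u => app (u 2) (u 0)) (Tm.var 0) (Tm.app (Tm.var 2) (Tm.var 0))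
  exact h5.1 W k (cons D fun _ => e) (In.cons (fun _ => h3) h2)

theorem vb_po {mu c r rt e : V} (hpo : IsPo c r) (he : Onto e mu c)
    (hrt : ∀ ξ η, ZFSet.pair ξ η ∈ rt ↔ ξ ∈ mu ∧ η ∈ mu ∧ ZFSet.pair (app e ξ) (app e η) ∈ r)
    (hs : rt ⊆ ZFSet.prod mu mu) : IsPo mu rt := by
  refine ⟨?_, fun z hz => ZFSet.mem_prod.1 (hs hz), fun p hp => ?_, fun p q s h1 h2 => ?_⟩
  · obtain ⟨y, hy⟩ := hpo.ne
    obtain ⟨ξ, hξ, -⟩ := he.2 y hy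
    exact ⟨ξ, hξ⟩
  · exact (hrt p p).2 ⟨hp, hp, hpo.refl _ (app_mem he.1 hp)⟩
  · have h3 := (hrt p q).1 h1
    have h4 := (hrt q s).1 h2
    exact (hrt p s).2 ⟨h3.1, h4.2.1, hpo.trans _ _ _ h3.2.2 h4.2.2⟩

theorem vb_onto {mu c e y : V} (he : Onto e mu c) (hy : y ∈ c) : ∃ ξ ∈ mu, app e ξ = y := by
  obtain ⟨ξ, hξ, h⟩ := he.2 y hy
  exact ⟨ξ, hξ, app_eq (svl_of_isFunc he.1) h⟩

theorem vb_in_right {c r x y : V} (hpo : IsPo c r) (h : ZFSet.pair x y ∈ r) : x ∈ c ∧ y ∈ c := by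
  obtain ⟨p, hp, q, hq, h2⟩ := hpo.sub _ h
  obtain ⟨rfl, rfl⟩ := ZFSet.pair_inj.1 h2
  exact ⟨hp, hq⟩

theorem vb1 {W : V → Prop} {mu c r rt e : V} (k : ZFm W) (hmu : W mu) (hc : W c) (hr : W r)
    (he' : W e) (hpo : IsPo c r) (he : Onto e mu c)
    (hrt : ∀ ξ η, ZFSet.pair ξ η ∈ rt ↔ ξ ∈ mu ∧ η ∈ mu ∧ ZFSet.pair (app e ξ) (app e η) ∈ r)
    (H : V) (hH : Gen W mu rt H) :
    Gen W c r (c.sep fun y => ∃ ξ ∈ H, ZFSet.pair (app e ξ) y ∈ r) ∧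
    ∀ ξ ∈ H, app e ξ ∈ c.sep fun y => ∃ ξ ∈ H, ZFSet.pair (app e ξ) y ∈ r := by
  obtain ⟨hf, hg⟩ := hH
  have h1 : ∀ ξ ∈ H, app e ξ ∈ c.sep fun y => ∃ ξ ∈ H, ZFSet.pair (app e ξ) y ∈ r := by
    intro ξ hξ
    have h2 := app_mem he.1 (hf.sub hξ)
    exact ZFSet.mem_sep.2 ⟨h2, ξ, hξ, hpo.refl _ h2⟩
  refine ⟨⟨⟨?_, ?_, ?_, ?_⟩, ?_⟩, h1⟩
  · intro y hy
    exact (ZFSet.mem_sep.1 hy).1
  · obtain ⟨ξ, hξ⟩ := hf.ne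
    exact ⟨_, h1 ξ hξ⟩
  · intro p hp q hpq
    obtain ⟨hp1, ξ, hξ, hp2⟩ := ZFSet.mem_sep.1 hp
    exact ZFSet.mem_sep.2 ⟨(vb_in_right hpo hpq).2, ξ, hξ, hpo.trans _ _ _ hp2 hpq⟩
  · intro p hp q hq
    obtain ⟨hp1, ξ, hξ, hp2⟩ := ZFSet.mem_sep.1 hp
    obtain ⟨hq1, η, hη, hq2⟩ := ZFSet.mem_sep.1 hq
    obtain ⟨ζ, hζ, h3, h4⟩ := hf.dir ξ hξ η hη
    exact ⟨app e ζ, h1 ζ hζ, hpo.trans _ _ _ ((hrt _ _).1 h3).2.2 hp2,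
      hpo.trans _ _ _ ((hrt _ _).1 h4).2.2 hq2⟩
  · intro D hD hdense
    obtain ⟨ξ, hξ, hξ2⟩ := hg _ (vb_mem1 k hmu hD he' hr) (by
      refine ⟨fun x hx => (ZFSet.mem_sep.1 hx).1, fun ξ hξ => ?_⟩
      obtain ⟨d, hd, hd2⟩ := hdense.2 _ (app_mem he.1 hξ)
      obtain ⟨η, hη, rfl⟩ := vb_onto he (hdense.1 hd)
      exact ⟨η, ZFSet.mem_sep.2 ⟨hη, _, hd, hpo.refl _ (hdense.1 hd)⟩, (hrt _ _).2 ⟨hη, hξ, hd2⟩⟩)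
    obtain ⟨hξm, d, hd, hd2⟩ := ZFSet.mem_sep.1 hξ2
    exact ⟨d, ZFSet.mem_sep.2 ⟨hdense.1 hd, ξ, hξ, hd2⟩, hd⟩

theorem vb2 {W : V → Prop} {mu c r rt e : V} (k : ZFm W) (hmu : W mu) (hc : W c) (hr : W r)
    (he' : W e) (hpo : IsPo c r) (he : Onto e mu c)
    (hrt : ∀ ξ η, ZFSet.pair ξ η ∈ rt ↔ ξ ∈ mu ∧ η ∈ mu ∧ ZFSet.pair (app e ξ) (app e η) ∈ r)
    (H : V) (hH : Gen W c r H) : Gen W mu rt (mu.sep fun ξ => app e ξ ∈ H) ∧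
    H = c.sep fun y => ∃ ξ ∈ mu.sep (fun ξ => app e ξ ∈ H), ZFSet.pair (app e ξ) y ∈ r := by
  obtain ⟨hf, hg⟩ := hH
  refine ⟨⟨⟨?_, ?_, ?_, ?_⟩, ?_⟩, ?_⟩
  · intro y hy
    exact (ZFSet.mem_sep.1 hy).1
  · obtain ⟨y, hy⟩ := hf.ne
    obtain ⟨ξ, hξ, rfl⟩ := vb_onto he (hf.sub hy)
    exact ⟨ξ, ZFSet.mem_sep.2 ⟨hξ, hy⟩⟩
  · intro p hp q hpq
    obtain ⟨hp1, hp2⟩ := ZFSet.mem_sep.1 hp
    obtain ⟨-, hq1, hq2⟩ := (hrt _ _).1 hpq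
    exact ZFSet.mem_sep.2 ⟨hq1, hf.up _ hp2 _ hq2⟩
  · intro p hp q hq
    obtain ⟨hp1, hp2⟩ := ZFSet.mem_sep.1 hp
    obtain ⟨hq1, hq2⟩ := ZFSet.mem_sep.1 hq
    obtain ⟨s, hs, h1, h2⟩ := hf.dir _ hp2 _ hq2
    obtain ⟨ξ, hξ, rfl⟩ := vb_onto he (hf.sub hs)
    exact ⟨ξ, ZFSet.mem_sep.2 ⟨hξ, hs⟩, (hrt _ _).2 ⟨hξ, hp1, h1⟩, (hrt _ _).2 ⟨hξ, hq1, h2⟩⟩
  · intro D hD hdense
    obtain ⟨y, hy, hy2⟩ := hg _ (vb_mem2 k hD he') (by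
      refine ⟨fun x hx => ?_, fun y hy => ?_⟩
      · obtain ⟨ξ, hξ, rfl⟩ := mem_imS.1 hx
        exact app_mem he.1 (hdense.1 hξ)
      · obtain ⟨ξ, hξ, rfl⟩ := vb_onto he hy
        obtain ⟨d, hd, hd2⟩ := hdense.2 ξ hξ
        exact ⟨app e d, mem_imS.2 ⟨d, hd, rfl⟩, ((hrt _ _).1 hd2).2.2⟩)
    obtain ⟨d, hd, rfl⟩ := mem_imS.1 hy2
    exact ⟨d, ZFSet.mem_sep.2 ⟨hdense.1 hd, hy⟩, hd⟩
  · ext y
    rw [ZFSet.mem_sep]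
    constructor
    · intro hy
      obtain ⟨ξ, hξ, rfl⟩ := vb_onto he (hf.sub hy)
      exact ⟨hf.sub hy, ξ, ZFSet.mem_sep.2 ⟨hξ, hy⟩, hpo.refl _ (hf.sub hy)⟩
    · rintro ⟨hy, ξ, hξ, h1⟩
      exact hf.up _ (ZFSet.mem_sep.1 hξ).2 _ h1

/-- VB with the additional hypothesis that `rt` is a set of pairs -/
theorem vb_all (W : V → Prop) (mu c r rt e : V) (k : ZFm W) (hmu : W mu) (hc : W c) (hr : W r)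
    (hrtW : W rt) (he' : W e) (hpo : IsPo c r) (he : Onto e mu c)
    (hrt : ∀ ξ η, ZFSet.pair ξ η ∈ rt ↔ ξ ∈ mu ∧ η ∈ mu ∧ ZFSet.pair (app e ξ) (app e η) ∈ r)
    (hs : rt ⊆ ZFSet.prod mu mu) : IsPo mu rt ∧
    (∀ H, Gen W mu rt H → Gen W c r (c.sep fun y => ∃ ξ ∈ H, ZFSet.pair (app e ξ) y ∈ r) ∧
      ∀ ξ ∈ H, app e ξ ∈ c.sep fun y => ∃ ξ ∈ H, ZFSet.pair (app e ξ) y ∈ r) ∧
    ∀ Hc, Gen W c r Hc → Gen W mu rt (mu.sep fun ξ => app e ξ ∈ Hc) ∧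
      Hc = c.sep fun y => ∃ ξ ∈ mu.sep (fun ξ => app e ξ ∈ Hc), ZFSet.pair (app e ξ) y ∈ r :=
  ⟨vb_po hpo he hrt hs, fun H hH => vb1 k hmu hc hr he' hpo he hrt H hH,
    fun H hH => vb2 k hmu hc hr he' hpo he hrt H hH⟩

/-- VB -/
theorem vb : T_VB := fun W mu c r rt e k hmu hc hr hrtW he' hpo he hrt hs =>
  vb_all W mu c r rt e k hmu hc hr hrtW he' hpo he hrt hs

end SF.H4
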