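import Pool.Agent.H72.SF.VT

/-! Arbitrarily large cardinals in a model of ZFC (module VC). -/

set_option linter.unusedVariables false

open Ordinal Cardinal Order Set
open scoped ZFSet

namespace SF.H4

open SF

/-- composition of surjections in a model -/
theorem vc_comp {W : V → Prop} (k : ZFm W) {f g a b c : V} (hf : W f) (hg : W g) (ha : W a)
    (h1 : Onto g a b) (h2 : Onto f b c) : ∃ h, W h ∧ Onto h a c := by
  have h5 : Tm ZFm (fun _ v => resS (v 0) fun x => app (v 1) (app (v 2) x)) :=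
    Tm.resS (g := fun _ u => app (u 2) (app (u 3) (u 0))) (Tm.var 0)
      (Tm.app (Tm.var 2) (Tm.app (Tm.var 3) (Tm.var 0)))
  refine ⟨resS a fun x => app f (app g x), h5.1 W k (cons a (cons f fun _ => g))
    (In.cons (In.cons (fun _ => hg) hf) ha), ?_, ?_⟩
  · exact isFunc_resS _ _ _ fun x hx => app_mem h2.1 (app_mem h1.1 hx)
  · intro z hz
    obtain ⟨y, hy, hyz⟩ := h2.2 z hz
    obtain ⟨x, hx, hxy⟩ := h1.2 y hy
    refine ⟨x, hx, pair_mem_resS.2 ⟨hx, ?_⟩⟩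
    rw [app_eq (svl_of_isFunc h1.1) hxy, app_eq (svl_of_isFunc h2.1) hyz]

/-- a nonempty subset (in the model) is an image -/
theorem vc_small {W : V → Prop} (k : ZFm W) {a b z : V} (ha : W a) (hb : W b) (hz : z ∈ b)
    (hba : b ⊆ a) : ∃ h, W h ∧ Onto h a b := by
  have h5 : Tm ZFm (fun _ v => resS (v 0) fun x => sel (x ∈ v 1) x (v 2)) :=
    Tm.resS (g := fun _ u => sel (u 0 ∈ u 2) (u 0) (u 3)) (Tm.var 0)
      (Tm.sel (Dfb.mem (Tm.var 0) (Tm.var 2)) (Tm.var 0) (Tm.var 3))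
  refine ⟨resS a fun x => sel (x ∈ b) x z, h5.1 W k (cons a (cons b fun _ => z))
    (In.cons (In.cons (fun _ => k.trans _ hb _ hz) hb) ha), ?_, ?_⟩
  · refine isFunc_resS _ _ _ fun x hx => ?_
    by_cases h : x ∈ b
    · rw [sel_pos h]
      exact h
    · rw [sel_neg h]
      exact hz
  · intro y hy
    refine ⟨y, hba hy, pair_mem_resS.2 ⟨hba hy, ?_⟩⟩
    rw [sel_pos hy]

/-- Cantor's theorem in a model -/
theorem vc_cantor {W : V → Prop} (k : ZFm W) {a y f : V} (ha : W a) (hf : W f)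
    (hy : ∀ z, W z → z ⊆ a → z ∈ y) : ¬ Onto f a y := by
  intro h
  have h5 : Tm ZFm (fun _ v => (v 0).sep fun x => ¬ x ∈ app (v 1) x) := by
    exact (Tm.sep (R := fun _ v => ¬ v 0 ∈ app (v 2) (v 0))
      (Dfb.mem (Tm.var 0) (Tm.app (Tm.var 2) (Tm.var 0))).not (Tm.var 0)).congr
      fun M k v hv => rfl
  have h6 : W (a.sep fun x => ¬ x ∈ app f x) := h5.1 W k (cons a fun _ => f)
    (In.cons (fun _ => hf) ha)
  obtain ⟨d, hd⟩ : ∃ d : V, d = a.sep fun x => ¬ x ∈ app f x := ⟨_, rfl⟩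
  rw [← hd] at h6
  obtain ⟨x, hx, hxd⟩ := h.2 d (hy d h6 (by
    rw [hd]
    exact fun z hz => (ZFSet.mem_sep.1 hz).1))
  have h7 := app_eq (svl_of_isFunc h.1) hxd
  have h8 : x ∈ d ↔ x ∈ a ∧ ¬ x ∈ app f x := by
    rw [hd, ZFSet.mem_sep]
  rw [h7] at h8
  tauto

/-- a nonzero ordinal which is not an image of `a` -/
theorem vc_hart {W : V → Prop} (k : ZFC W) {a : V} (ha : W a) :
    ∃ δ : Ordinal.{0}, W δ.toZFSet ∧ δ ≠ 0 ∧ ¬ ∃ f, W f ∧ Onto f a δ.toZFSet := by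
  obtain ⟨y, hyW, hy⟩ := k.pow a ha
  obtain ⟨δ, g, hg, hgo⟩ := k.wo y hyW
  have hδ : W δ.toZFSet := by
    have h1 : W (dm g) := (Tm.dm (Tm.var 0)).1 W k.toZFm (fun _ => g) fun _ => hg
    have h2 : dm g = δ.toZFSet := by
      ext z
      rw [mem_dm]
      constructor
      · rintro ⟨u, hu⟩
        exact (ZFSet.pair_mem_prod.1 (hgo.1.1 hu)).1
      · intro hz
        exact ⟨_, pair_app_mem hgo.1 hz⟩
    rwa [h2] at h1
  refine ⟨δ, hδ, ?_, ?_⟩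
  · rintro rfl
    obtain ⟨z, hz, -⟩ := hgo.2 a (hy a ha fun z hz => hz)
    rw [Ordinal.toZFSet_zero] at hz
    exact ZFSet.notMem_empty _ hz
  · rintro ⟨f, hf, hfo⟩
    obtain ⟨h, hh, hho⟩ := vc_comp k.toZFm hg hf ha hfo hgo
    exact vc_cantor k.toZFm ha hh hy hho

theorem vc : T_VC := by
  intro W k α hα x hx
  have km : ZFm W := k.toZFm
  have htW : W (tcS x) := (Tm.tcS (Tm.var 0)).1 W km (fun _ => x) fun _ => hx
  obtain ⟨b0, g0, hg0, hgo⟩ := k.wo _ htW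
  have hb0 : W b0.toZFSet := by
    have h1 : W (dm g0) := (Tm.dm (Tm.var 0)).1 W km (fun _ => g0) fun _ => hg0
    have h2 : dm g0 = b0.toZFSet := by
      ext z
      rw [mem_dm]
      constructor
      · rintro ⟨u, hu⟩
        exact (ZFSet.pair_mem_prod.1 (hgo.1.1 hu)).1
      · intro hz
        exact ⟨_, pair_app_mem hgo.1 hz⟩
    rwa [h2] at h1
  have hmax : ∀ a b : Ordinal.{0}, W a.toZFSet → W b.toZFSet → W (max a b).toZFSet := by
    intro a b ha hb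
    rcases le_total a b with h | h
    · rwa [max_eq_right h]
    · rwa [max_eq_left h]
  obtain ⟨β, hβ⟩ : ∃ β : Ordinal.{0}, β = max (max α b0) ω := ⟨_, rfl⟩
  have hβW : W β.toZFSet := by
    rw [hβ]
    exact hmax _ _ (hmax _ _ hα hb0) k.inf
  have hαβ : α ≤ β := by
    rw [hβ]
    exact (le_max_left _ _).trans (le_max_left _ _)
  have hbβ : b0 ≤ β := by
    rw [hβ]
    exact (le_max_right _ _).trans (le_max_left _ _)
  have hωβ : ω ≤ β := by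
    rw [hβ]
    exact le_max_right _ _
  obtain ⟨δ, hδ⟩ := vc_hart k hβW
  obtain ⟨θ, ⟨hθW, hθ0, hθ⟩, hmin⟩ := (wellFounded_lt (α := Ordinal.{0})).has_min
    {θ | W θ.toZFSet ∧ θ ≠ 0 ∧ ¬ ∃ f, W f ∧ Onto f β.toZFSet θ.toZFSet} ⟨δ, hδ⟩
  have hβθ : β < θ := by
    by_contra h
    push Not at h
    refine hθ (vc_small km hβW hθW (z := ∅) ?_ (Ordinal.toZFSet_subset_toZFSet_iff.2 h))
    have h1 : (0 : Ordinal.{0}).toZFSet ∈ θ.toZFSet :=
      Ordinal.toZFSet_mem_toZFSet_iff.2 (pos_iff_ne_zero.2 hθ0)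
    rwa [Ordinal.toZFSet_zero] at h1
  refine ⟨θ, hαβ.trans hβθ.le, ⟨hωβ.trans hβθ.le, hθW, ?_⟩, hx, tcS x, htW,
    tcS_isTransitive x, tcS_self x, b0, hbβ.trans_lt hβθ, g0, hg0, hgo⟩
  rintro γ hγ ⟨f, hf, hfo⟩
  by_cases h0 : γ = 0
  · subst h0
    have h1 : (0 : Ordinal.{0}).toZFSet ∈ θ.toZFSet :=
      Ordinal.toZFSet_mem_toZFSet_iff.2 (pos_iff_ne_zero.2 hθ0)
    obtain ⟨z, hz, -⟩ := hfo.2 _ h1
    rw [Ordinal.toZFSet_zero] at hz
    exact ZFSet.notMem_empty _ hz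
  · have hγW : W γ.toZFSet := km.trans _ hθW _ (Ordinal.toZFSet_mem_toZFSet_iff.2 hγ)
    have h1 : ∃ g, W g ∧ Onto g β.toZFSet γ.toZFSet := by
      by_contra h
      exact hmin γ ⟨hγW, h0, h⟩ hγ
    obtain ⟨g, hg, hgo'⟩ := h1
    exact hθ (vc_comp km hf hg hβW hgo' hfo)

end SF.H4
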