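import Pool.Agent.H72.SF.YT

/-! Definability of morphisms, generic filters, finite sets (module YA). -/

set_option linter.unusedVariables false

open Ordinal Cardinal Order Set
open scoped ZFSet

namespace SF.H4

open SF

variable {f g h : (V → Prop) → (ℕ → V) → V}

theorem ya_lub (hWF : T_WF) (hf : Tm ZFm f) (hg : Tm ZFm g) (hh : Tm ZFm h) :
    Dfb ZFm (fun M v => LubB (f M v) (g M v) (h M v)) :=
  Dfb.at3 (P := fun _ x y z => LubB x y z) hWF.1 hf hg hh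

theorem ya_mor (hWF : T_WF) : Dfb ZFm (fun M v => MorR M (v 0) (v 1) (v 2)) := by
  have h1 : Dfb ZFm (fun _ v => ∀ x ∈ v 0, ∀ y ∈ v 0,
      app (v 2) (x ∩ y) = app (v 2) x ∩ app (v 2) y) := by
    refine (Dfb.ball (R := fun _ v => ∀ y ∈ v 1,
      app (v 3) (v 0 ∩ y) = app (v 3) (v 0) ∩ app (v 3) y) ktr_zfm (Tm.var 0) ?_).congr
      fun M k v hv => Iff.rfl
    refine (Dfb.ball (R := fun _ v =>
      app (v 4) (v 1 ∩ v 0) = app (v 4) (v 1) ∩ app (v 4) (v 0)) ktr_zfm (Tm.var 1) ?_).congr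
      fun M k v hv => Iff.rfl
    exact Dfb.eq (Tm.app (Tm.var 4) (Tm.inter (Tm.var 1) (Tm.var 0)))
      (Tm.inter (Tm.app (Tm.var 4) (Tm.var 1)) (Tm.app (Tm.var 4) (Tm.var 0)))
  have h2 : Dfb ZFm (fun M v => ∀ S, M S → (S ⊆ v 0 → ∀ y ∈ v 0, (LubB (v 0) S y →
      LubB (v 1) (imS S fun x => app (v 2) x) (app (v 2) y)))) := by
    refine (Dfb.all (R := fun _ v => v 0 ⊆ v 1 → ∀ y ∈ v 1, (LubB (v 1) (v 0) y →
      LubB (v 2) (imS (v 0) fun x => app (v 3) x) (app (v 3) y))) ?_).congr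
      fun M k v hv => Iff.rfl
    refine (Dfb.subset (Tm.var 0) (Tm.var 1)).imp ?_
    refine (Dfb.ball (R := fun _ v => LubB (v 2) (v 1) (v 0) →
      LubB (v 3) (imS (v 1) fun x => app (v 4) x) (app (v 4) (v 0))) ktr_zfm (Tm.var 1)
      ?_).congr fun M k v hv => Iff.rfl
    refine (ya_lub hWF (Tm.var 2) (Tm.var 1) (Tm.var 0)).imp ?_
    exact ya_lub hWF (Tm.var 3) (Tm.image (g := fun _ u => app (u 5) (u 0)) (Tm.var 1)
      (Tm.app (Tm.var 5) (Tm.var 0))) (Tm.app (Tm.var 4) (Tm.var 0))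
  refine ((Dfb.isFunc (Tm.var 0) (Tm.var 1) (Tm.var 2)).and (h1.and h2)).congr
    fun M k v hv => ?_
  constructor
  · rintro ⟨a, b, c⟩
    exact ⟨a, b, fun S hS hSB y hy => c S hS hSB y hy.1 hy⟩
  · rintro ⟨a, b, c⟩
    exact ⟨a, b, fun S hS hSB y _ hy => c S hS hSB y hy⟩

theorem ya_bas (hWF : T_WF) : Dfb ZFm (fun M v => BasR M (v 0) (v 1) (v 2)) := by
  have h1 : Dfb ZFm (fun M v => CBAr M (v 1)) :=
    Dfb.at1 (P := fun M x => CBAr M x) hWF.2.1 (Tm.var 1)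
  have h2 : Dfb ZFm (fun _ v => app (v 2) (⋃₀ (v 0) : ZFSet) = (⋃₀ (v 1) : ZFSet)) :=
    Dfb.eq (Tm.app (Tm.var 2) (Tm.sUnion (Tm.var 0))) (Tm.sUnion (Tm.var 1))
  refine (h1.and ((ya_mor hWF).and h2)).congr fun M k v hv => ?_
  exact ⟨fun ⟨a, b, c⟩ => ⟨a, b, c⟩, fun ⟨a, b, c⟩ => ⟨a, b, c⟩⟩

theorem ya_bmor (hWF : T_WF) :
    Dfb ZFm (fun M v => BMorR M (v 0) (v 1) (v 2) (v 3) (v 4) (v 5)) := by
  have h1 : Dfb ZFm (fun M v => MorR M (v 1) (v 3) (v 5)) :=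
    Dfb.at3 (P := fun M x y z => MorR M x y z) (ya_mor hWF) (Tm.var 1) (Tm.var 3) (Tm.var 5)
  have h2 : Dfb ZFm (fun _ v => ∀ x ∈ v 0, app (v 5) (app (v 2) x) =
      app (v 4) x ∩ app (v 5) (⋃₀ (v 1) : ZFSet)) := by
    refine (Dfb.ball (R := fun _ v => app (v 6) (app (v 3) (v 0)) =
      app (v 5) (v 0) ∩ app (v 6) (⋃₀ (v 2) : ZFSet)) ktr_zfm (Tm.var 0) ?_).congr
      fun M k v hv => Iff.rfl
    exact Dfb.eq (Tm.app (Tm.var 6) (Tm.app (Tm.var 3) (Tm.var 0)))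
      (Tm.inter (Tm.app (Tm.var 5) (Tm.var 0)) (Tm.app (Tm.var 6) (Tm.sUnion (Tm.var 2))))
  refine (h1.and h2).congr fun M k v hv => ?_
  exact ⟨fun ⟨a, b⟩ => ⟨a, b⟩, fun ⟨a, b⟩ => ⟨a, b⟩⟩

theorem ya_ngen : Dfb ZFm (fun _ v => NGen (v 0) (v 1) (v 2)) := by
  have h1 : Dfb ZFm (fun _ v => v 2 ⊆ v 1) := Dfb.subset (Tm.var 2) (Tm.var 1)
  have h2 : Dfb ZFm (fun _ v => (v 2).Nonempty) := Dfb.ne (Tm.var 2)
  have h3 : Dfb ZFm (fun _ v => ¬ (∅ : V) ∈ v 2) := (Dfb.mem Tm.empty (Tm.var 2)).not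
  have h4 : Dfb ZFm (fun _ v => ∀ x ∈ v 2, ∀ y ∈ v 1, (x ⊆ y → y ∈ v 2)) := by
    refine (Dfb.ball (R := fun _ v => ∀ y ∈ v 2, (v 0 ⊆ y → y ∈ v 3)) ktr_zfm (Tm.var 2)
      ?_).congr fun M k v hv => Iff.rfl
    refine (Dfb.ball (R := fun _ v => v 1 ⊆ v 0 → v 0 ∈ v 4) ktr_zfm (Tm.var 2)
      ?_).congr fun M k v hv => Iff.rfl
    exact (Dfb.subset (Tm.var 1) (Tm.var 0)).imp (Dfb.mem (Tm.var 0) (Tm.var 4))
  have h5 : Dfb ZFm (fun _ v => ∀ x ∈ v 2, ∀ y ∈ v 2, x ∩ y ∈ v 2) := by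
    refine (Dfb.ball (R := fun _ v => ∀ y ∈ v 3, v 0 ∩ y ∈ v 3) ktr_zfm (Tm.var 2)
      ?_).congr fun M k v hv => Iff.rfl
    refine (Dfb.ball (R := fun _ v => v 1 ∩ v 0 ∈ v 4) ktr_zfm (Tm.var 3)
      ?_).congr fun M k v hv => Iff.rfl
    exact Dfb.mem (Tm.inter (Tm.var 1) (Tm.var 0)) (Tm.var 4)
  have h6 : Dfb ZFm (fun _ v => ∀ D ∈ v 0, (D ⊆ v 1 →
      ((∀ x ∈ v 1, (¬ x = ∅ → ∃ d ∈ D, (¬ d = ∅ ∧ d ⊆ x))) → ∃ d ∈ D, d ∈ v 2))) := by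
    refine (Dfb.ball (R := fun _ v => v 0 ⊆ v 2 →
      ((∀ x ∈ v 2, (¬ x = ∅ → ∃ d ∈ v 0, (¬ d = ∅ ∧ d ⊆ x))) → ∃ d ∈ v 0, d ∈ v 3)) ktr_zfm
      (Tm.var 0) ?_).congr fun M k v hv => Iff.rfl
    refine (Dfb.subset (Tm.var 0) (Tm.var 2)).imp (Dfb.imp ?_ ?_)
    · refine (Dfb.ball (R := fun _ v => ¬ v 0 = ∅ → ∃ d ∈ v 1, (¬ d = ∅ ∧ d ⊆ v 0)) ktr_zfm
        (Tm.var 2) ?_).congr fun M k v hv => Iff.rfl
      refine (Dfb.eq (Tm.var 0) Tm.empty).not.imp ?_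
      refine (Dfb.bex (R := fun _ v => ¬ v 0 = ∅ ∧ v 0 ⊆ v 1) ktr_zfm
        (Tm.var 1) ?_).congr fun M k v hv => Iff.rfl
      exact (Dfb.eq (Tm.var 0) Tm.empty).not.and (Dfb.subset (Tm.var 0) (Tm.var 1))
    · exact (Dfb.bex (R := fun _ v => v 0 ∈ v 4) ktr_zfm (Tm.var 0)
        (Dfb.mem (Tm.var 0) (Tm.var 4))).congr fun M k v hv => Iff.rfl
  refine (h1.and (h2.and (h3.and (h4.and (h5.and h6))))).congr fun M k v hv => ?_
  exact ⟨fun ⟨a, b, c, d, e, f⟩ => ⟨a, b, c, d, e, f⟩, fun ⟨a, b, c, d, e, f⟩ => ⟨a, b, c, d, e, f⟩⟩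

theorem ya_ev : Tm ZFm (fun _ v => ev (v 0) (v 1) (v 2)) := by
  refine (Tm.sep (R := fun _ v => ∃ c ∈ v 3, ZFSet.pair (v 0) c ∈ v 2) ?_ (Tm.var 0)).congr
    fun M k v hv => rfl
  exact (Dfb.bex (R := fun _ v => ZFSet.pair (v 1) (v 0) ∈ v 3) ktr_zfm (Tm.var 3)
    (Dfb.pairMem (Tm.var 1) (Tm.var 0) (Tm.var 3))).congr fun M k v hv => Iff.rfl

/-- finite subsets of a set of the model -/
theorem ya_finsub (M : V → Prop) (k : ZFm M) (a : V) (ha : M a) (s : V) (hs : s ⊆ a)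
    (hf : (s : Set V).Finite) : M s := by
  have key : ∀ t : Set V, t.Finite → (∀ x ∈ t, x ∈ a) → ∃ z : V, M z ∧ ∀ x, x ∈ z ↔ x ∈ t := by
    intro t ht
    induction t, ht using Set.Finite.induction_on with
    | empty => exact fun _ => ⟨∅, k.mempty, fun x => by simp⟩
    | @insert x t _ _ ih =>
      intro h
      obtain ⟨z, hz, h1⟩ := ih fun y hy => h y (Set.mem_insert_of_mem _ hy)
      refine ⟨insert x z, ?_, fun y => ?_⟩
      · exact (Tm.ins (Tm.var 0) (Tm.var 1)).1 M k (cons x (cons z fun _ => a))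
          ((In.cons (fun _ => ha) hz).cons (k.trans a ha x (h x (Set.mem_insert _ _))))
      · rw [ZFSet.mem_insert_iff, Set.mem_insert_iff, h1]
  obtain ⟨z, hz, h1⟩ := key _ hf fun x hx => hs hx
  have h2 : z = s := by
    ext x
    rw [h1]
    exact Iff.rfl
  rw [← h2]
  exact hz

theorem ya_fin_nS (n : ℕ) : ((nS n : V) : Set V).Finite := by
  refine ((Finset.range n).finite_toSet.image nS).subset fun x hx => ?_
  obtain ⟨a, ha, rfl⟩ := Ordinal.mem_toZFSet_iff.1 (show x ∈ nS n from hx)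
  obtain ⟨m, rfl⟩ := Ordinal.lt_omega0.1 (ha.trans (Ordinal.natCast_lt_omega0 n))
  exact ⟨m, by simpa using ha, rfl⟩

theorem ya_fin_iff (M : V → Prop) (k : ZFm M) (x : V) (hx : M x) :
    (x : Set V).Finite ↔ ∃ n ∈ om, ∃ f, M f ∧ Onto f n x := by
  constructor
  · intro hf
    obtain ⟨L, hL⟩ : ∃ L : List V, ∀ y, y ∈ L ↔ y ∈ x :=
      ⟨hf.toFinset.toList, fun y => by
        rw [Finset.mem_toList, Set.Finite.mem_toFinset]
        exact Iff.rfl⟩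
    have hval : ∀ i ∈ nS L.length, ∃ m < L.length, i = nS m := by
      intro i hi
      obtain ⟨a, ha, rfl⟩ := Ordinal.mem_toZFSet_iff.1 hi
      obtain ⟨m, rfl⟩ := Ordinal.lt_omega0.1 (ha.trans (Ordinal.natCast_lt_omega0 _))
      exact ⟨m, by exact_mod_cast ha, rfl⟩
    have hfun : ZFSet.IsFunc (nS L.length) x
        (resS (nS L.length) fun i => L.getD (nn i) ∅) := by
      refine isFunc_resS _ _ _ fun i hi => ?_
      obtain ⟨m, hm, rfl⟩ := hval i hi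
      rw [nn_nS, List.getD_eq_getElem _ _ hm]
      exact (hL _).1 (List.getElem_mem hm)
    refine ⟨nS L.length, nS_mem_om _, _, ?_, hfun, ?_⟩
    · refine ya_finsub M k (ZFSet.prod om x)
        ((Tm.prod Tm.om (Tm.var 0)).1 M k (fun _ => x) fun _ => hx) _ ?_ ?_
      · intro q hq
        obtain ⟨i, hi, rfl⟩ := mem_resS.1 hq
        obtain ⟨m, hm, rfl⟩ := hval i hi
        rw [nn_nS, List.getD_eq_getElem _ _ hm]
        exact ZFSet.pair_mem_prod.2 ⟨nS_mem_om m, (hL _).1 (List.getElem_mem hm)⟩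
      · refine ((ya_fin_nS L.length).image fun i => ZFSet.pair i (L.getD (nn i) ∅)).subset
          fun q hq => ?_
        obtain ⟨i, hi, rfl⟩ := mem_resS.1 (show q ∈ resS _ _ from hq)
        exact ⟨i, hi, rfl⟩
    · intro b hb
      obtain ⟨m, hm, hmb⟩ := List.getElem_of_mem ((hL b).2 hb)
      refine ⟨nS m, nS_mem_nS.2 hm, ?_⟩
      rw [pair_mem_resS, nn_nS, List.getD_eq_getElem _ _ hm]
      exact ⟨nS_mem_nS.2 hm, hmb.symm⟩
  · rintro ⟨n, hn, f, hf, h1, h2⟩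
    obtain ⟨m, rfl⟩ := mem_om.1 hn
    refine ((ya_fin_nS m).image (app f)).subset fun b hb => ?_
    obtain ⟨a, ha, hab⟩ := h2 b hb
    exact ⟨a, ha, app_eq (svl_of_isFunc h1) hab⟩

theorem ya_fin : Dfb ZFm (fun _ v => ((v 0 : V) : Set V).Finite) := by
  refine Dfb.congr (R := fun M v => ∃ n ∈ om, ∃ f, M f ∧ Onto f n (v 0)) ?_
    fun M k v hv => (ya_fin_iff M k (v 0) (hv 0)).symm
  refine (Dfb.bex (R := fun M v => ∃ f, M f ∧ Onto f (v 0) (v 1)) ktr_zfm Tm.om ?_).congr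
    fun M k v hv => Iff.rfl
  exact (Dfb.ex (R := fun _ v => Onto (v 0) (v 1) (v 2))
    (Dfb.onto (Tm.var 0) (Tm.var 1) (Tm.var 2))).congr fun M k v hv => Iff.rfl

theorem ya (hWF : T_WF) : T_YA :=
  ⟨ya_mor hWF, ya_bas hWF, ya_bmor hWF, ya_ngen, ya_fin, ya_ev,
    fun M k a ha s hs hf => ya_finsub M k a ha s hs hf⟩

end SF.H4
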