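import Pool.Agent.H72.SF.YT

/-! Morphisms: the type El versus sets (module YD). -/

set_option linter.unusedVariables false

open Ordinal Cardinal Order Set
open scoped ZFSet

namespace SF.H4

open SF

theorem yd_top (B : V) [IsCBA B] : (⊤ : El B).val = (⋃₀ B : ZFSet) := by
  refine subset_antisymm ?_ ?_
  · intro z hz
    exact ZFSet.mem_sUnion.2 ⟨_, (⊤ : El B).mem, hz⟩
  · intro z hz
    obtain ⟨x, hx, hzx⟩ := ZFSet.mem_sUnion.1 hz
    exact El.le_iff.1 (le_top : (⟨x, hx⟩ : El B) ≤ ⊤) hzx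

theorem yd_mem_gr {B C : V} [IsCBA B] [IsCBA C] (h : Mor B C) (q : V) :
    q ∈ h.gr ↔ ∃ x : El B, ZFSet.pair x.val (h x).val = q := by
  unfold Mor.gr
  rw [ZFSet.mem_range]

theorem yd_svl {B C : V} [IsCBA B] [IsCBA C] (h : Mor B C) : Svl h.gr := by
  intro a b c hb hc
  obtain ⟨x, hx⟩ := (yd_mem_gr h _).1 hb
  obtain ⟨y, hy⟩ := (yd_mem_gr h _).1 hc
  rw [ZFSet.pair_inj] at hx hy
  have hxy : x = y := El.ext (hx.1.trans hy.1.symm)
  rw [← hx.2, ← hy.2, hxy]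

theorem yd_app {B C : V} [IsCBA B] [IsCBA C] (h : Mor B C) (x : El B) :
    app h.gr x.val = (h x).val :=
  app_eq (yd_svl h) ((yd_mem_gr h _).2 ⟨x, rfl⟩)

theorem yd_func {B C : V} [IsCBA B] [IsCBA C] (h : Mor B C) : ZFSet.IsFunc B C h.gr := by
  refine ⟨fun q hq => ?_, fun z hz => ?_⟩
  · obtain ⟨x, rfl⟩ := (yd_mem_gr h _).1 hq
    exact ZFSet.pair_mem_prod.2 ⟨x.mem, (h x).mem⟩
  · refine ⟨(h ⟨z, hz⟩).val, (yd_mem_gr h _).2 ⟨⟨z, hz⟩, rfl⟩, fun w hw => ?_⟩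
    exact yd_svl h _ _ _ hw ((yd_mem_gr h _).2 ⟨⟨z, hz⟩, rfl⟩)

/-- the set of the values of a set of elements -/
noncomputable def ydS {B : V} (S : Set (El B)) : V := B.sep fun s => ∃ x : El B, x ∈ S ∧ x.val = s

theorem mem_ydS {B : V} {S : Set (El B)} {s : V} : s ∈ ydS S ↔ ∃ x : El B, x ∈ S ∧ x.val = s := by
  unfold ydS
  rw [ZFSet.mem_sep]
  refine ⟨fun h => h.2, fun h => ⟨?_, h⟩⟩
  obtain ⟨x, -, rfl⟩ := h
  exact x.mem

theorem ydS_set {B S : V} (hS : S ⊆ B) : ydS {X : El B | X.val ∈ S} = S := by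
  ext s
  rw [mem_ydS]
  constructor
  · rintro ⟨x, hx, rfl⟩
    exact hx
  · intro hs
    exact ⟨⟨s, hS hs⟩, hs, rfl⟩

theorem ydS_image {B C : V} (f : El B → El C) (F : V → V) (hF : ∀ x : El B, F x.val = (f x).val)
    (S : Set (El B)) : imS (ydS S) F = ydS (f '' S) := by
  ext s
  rw [mem_imS, mem_ydS]
  constructor
  · rintro ⟨a, ha, rfl⟩
    obtain ⟨x, hx, rfl⟩ := mem_ydS.1 ha
    exact ⟨f x, ⟨x, hx, rfl⟩, (hF x).symm⟩
  · rintro ⟨y, ⟨x, hx, rfl⟩, rfl⟩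
    exact ⟨x.val, mem_ydS.2 ⟨x, hx, rfl⟩, hF x⟩

theorem yd1 (hWG : T_WG) (B C : V) [IsCBA B] [IsCBA C] (h : Mor B C) : MorR Al B C h.gr := by
  refine ⟨yd_func h, ?_, ?_⟩
  · intro x hx y hy
    have h1 := h.inf ⟨x, hx⟩ ⟨y, hy⟩
    have h2 := congrArg El.val h1
    rw [El.inf_val, ← yd_app, ← yd_app, ← yd_app, El.inf_val] at h2
    exact h2
  · intro S _ hS y hy
    have h1 : LubB B (ydS {X : El B | X.val ∈ S}) (⟨y, hy.1⟩ : El B).val := by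
      rw [ydS_set hS]
      exact hy
    have h2 := (hWG.2.1 B _ _).1 h1
    have h3 : h ⟨y, hy.1⟩ = sSup (h.f '' {X : El B | X.val ∈ S}) := by
      rw [h2]
      exact h.sup _
    have h4 := (hWG.2.1 C _ _).2 h3
    have h5 : imS S (fun x => app h.gr x) = ydS (h.f '' {X : El B | X.val ∈ S}) := by
      rw [← ydS_image h.f (fun x => app h.gr x) (fun x => yd_app h x), ydS_set hS]
    rw [h5]
    have h6 : app h.gr y = (h ⟨y, hy.1⟩).val := yd_app h ⟨y, hy.1⟩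
    rw [h6]
    exact h4

theorem yd2 (hWG : T_WG) (B C : V) [IsCBA B] [IsCBA C] (h : V) (hh : MorR Al B C h) :
    ∃ m : Mor B C, m.gr = h := by
  obtain ⟨f, hf⟩ : ∃ f : El B → El C, ∀ x : El B, app h x.val = (f x).val :=
    ⟨fun x => ⟨app h x.val, app_mem hh.func x.mem⟩, fun x => rfl⟩
  refine ⟨⟨f, fun x y => ?_, fun S => ?_⟩, ?_⟩
  · refine El.ext ?_
    rw [El.inf_val, ← hf, ← hf, ← hf, El.inf_val]
    exact hh.inter _ x.mem _ y.mem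
  · have h1 : LubB B (ydS S) (sSup S).val := (hWG.2.1 B S _).2 rfl
    have h2 := hh.lub (ydS S) trivial (fun s hs => (ZFSet.mem_sep.1 hs).1) _ h1
    rw [ydS_image f (fun x => app h x) hf, hf] at h2
    exact (hWG.2.1 C _ _).1 h2
  · ext q
    rw [yd_mem_gr]
    constructor
    · rintro ⟨x, rfl⟩
      show ZFSet.pair x.val (f x).val ∈ h
      rw [← hf]
      exact pair_app_mem hh.func x.mem
    · intro hq
      obtain ⟨a, ha, b, hb, rfl⟩ := ZFSet.mem_prod.1 (hh.func.1 hq)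
      refine ⟨⟨a, ha⟩, ?_⟩
      show ZFSet.pair a (f ⟨a, ha⟩).val = _
      rw [← hf, app_eq (svl_of_isFunc hh.func) hq]

theorem yd3 (hWG : T_WG) (A : BA) : BasR Al B0 A.B A.g.gr := by
  refine ⟨(hWG.1 A.B).1 inferInstance, yd1 hWG B0 A.B A.g, ?_⟩
  rw [← yd_top B0, yd_app, A.unit, yd_top]

theorem yd4 (hWG : T_WG) (B g : V) (hg : BasR Al B0 B g) : ∃ A : BA, A.B = B ∧ A.g.gr = g := by
  have hB : IsCBA B := (hWG.1 B).2 hg.cba
  obtain ⟨m, hm⟩ := yd2 hWG B0 B g hg.mor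
  refine ⟨⟨B, m, ?_⟩, rfl, hm⟩
  refine El.ext ?_
  rw [← yd_app, hm, yd_top, yd_top]
  exact hg.unit

theorem yd5 (hWG : T_WG) (A C : BA) (h : BMor A C) :
    BMorR Al B0 A.B A.g.gr C.B C.g.gr h.gr := by
  refine ⟨yd1 hWG A.B C.B h.toMor, fun x hx => ?_⟩
  have h1 := congrArg El.val (h.base ⟨x, hx⟩)
  rw [El.inf_val] at h1
  have h2 : app A.g.gr x = (A.g ⟨x, hx⟩).val := yd_app A.g ⟨x, hx⟩
  have h3 : app C.g.gr x = (C.g ⟨x, hx⟩).val := yd_app C.g ⟨x, hx⟩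
  rw [h2, h3, ← yd_top A.B, yd_app, yd_app]
  exact h1

theorem yd6 (hWG : T_WG) (A C : BA) (h : V) (hh : BMorR Al B0 A.B A.g.gr C.B C.g.gr h) :
    ∃ m : BMor A C, m.gr = h := by
  obtain ⟨m, hm⟩ := yd2 hWG A.B C.B h hh.mor
  refine ⟨⟨m, fun x => ?_⟩, hm⟩
  refine El.ext ?_
  have h1 := hh.base x.val x.mem
  rw [yd_app, yd_app, ← yd_top A.B, ← hm, yd_app, yd_app] at h1
  rw [El.inf_val]
  exact h1

theorem yd (hWG : T_WG) : T_YD :=
  ⟨fun B C _ _ h => ⟨yd1 hWG B C h, yd_app h⟩, fun B C _ _ h hh => yd2 hWG B C h hh,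
    yd3 hWG, yd4 hWG, yd5 hWG, yd6 hWG⟩

end SF.H4
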