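import Pool.Agent.H72.SF.YT

/-! Maps with values in an algebra: the type El versus sets (module YE). -/

set_option linter.unusedVariables false

open Ordinal Cardinal Order Set
open scoped ZFSet

namespace SF.H4

open SF

theorem ye_mk {B : V} [IsCBA B] {x : V} (h : x ∈ B) : (mkEl B x).val = x := by
  unfold mkEl
  rw [dif_pos h]

theorem ye_ne_bot {B : V} [IsCBA B] {x : El B} (h : x.val ≠ ∅) : x ≠ ⊥ := by
  rintro rfl
  exact h El.bot_val

theorem ye_ne_empty {B : V} [IsCBA B] {x : El B} (h : x ≠ ⊥) : x.val ≠ ∅ := by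
  intro h2
  exact h (El.ext (h2.trans El.bot_val.symm))

/-- the set of the values, and the supremum -/
theorem ye_set {B : V} [IsCBA B] {N : V} (F : V → El B) (G : V → V)
    (hG : ∀ y ∈ N, G y = (F y).val) :
    (B.sep fun s => ∃ x : El B, x ∈ {z : El B | ∃ y ∈ N, F y = z} ∧ x.val = s) = imS N G := by
  ext s
  rw [ZFSet.mem_sep, mem_imS]
  constructor
  · rintro ⟨-, x, ⟨y, hy, rfl⟩, rfl⟩
    exact ⟨y, hy, hG y hy⟩
  · rintro ⟨y, hy, rfl⟩
    rw [hG y hy]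
    exact ⟨(F y).mem, F y, ⟨y, hy, rfl⟩, rfl⟩

theorem ye_sup {B : V} [IsCBA B] {N : V} (F : V → El B) (h0 : ∀ y, F y ≠ ⊥ → y ∈ N) :
    ⨆ y, F y = sSup {z : El B | ∃ y ∈ N, F y = z} := by
  refine le_antisymm (iSup_le fun y => ?_) (sSup_le ?_)
  · by_cases h : F y = ⊥
    · rw [h]
      exact bot_le
    · exact le_sSup ⟨y, h0 y h, rfl⟩
  · rintro z ⟨y, -, rfl⟩
    exact le_iSup F y

/-- a set of pairs with a common nonempty lower bound of the values is single valued -/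
theorem ye_svl {N' N σ s X : V} (hs : s ⊆ ZFSet.prod N' N) (hX : X ≠ ∅)
    (hq : ∀ q ∈ s, X ⊆ app σ q) (hfn : ∀ x ∈ N', ∀ y ∈ N, ∀ y' ∈ N, y ≠ y' →
      app σ (ZFSet.pair x y) ∩ app σ (ZFSet.pair x y') = ∅) : Svl s := by
  intro x y y' h1 h2
  by_contra hne
  have h3 := ZFSet.pair_mem_prod.1 (hs h1)
  have h4 := ZFSet.pair_mem_prod.1 (hs h2)
  have h5 := hfn x h3.1 y h3.2 y' h4.2 hne
  refine hX ((ZFSet.eq_empty _).2 fun z hz => ?_)
  have h6 : z ∈ app σ (ZFSet.pair x y) ∩ app σ (ZFSet.pair x y') :=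
    ZFSet.mem_inter.2 ⟨hq _ h1 hz, hq _ h2 hz⟩
  rw [h5] at h6
  exact ZFSet.notMem_empty _ h6

theorem ye1 (hWG : T_WG) (B : V) [IsCBA B] (N' N : V) (b : El B) (σ : V → V → El B)
    (hσ : BMap N' N b σ) : BMapS N' N B b.val (cS N' N σ) ∧
    ∀ x ∈ N', ∀ y ∈ N, app (cS N' N σ) (ZFSet.pair x y) = (σ x y).val := by
  have happ : ∀ x ∈ N', ∀ y ∈ N, app (cS N' N σ) (ZFSet.pair x y) = (σ x y).val := by
    intro x hx y hy
    unfold cS
    rw [app_resS (ZFSet.pair_mem_prod.2 ⟨hx, hy⟩), fst_pair, snd_pair]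
  refine ⟨⟨?_, b.mem, ?_, ?_, ?_⟩, happ⟩
  · exact isFunc_resS _ _ _ fun q hq => El.mem _
  · intro x hx
    have h1 := hσ.tot x hx
    rw [ye_sup (N := N) (σ x) fun y hy => (hσ.dom x y hy).2] at h1
    have h2 := (hWG.2.1 B _ _).2 h1.symm
    rw [ye_set (σ x) (fun y => app (cS N' N σ) (ZFSet.pair x y))
      fun y hy => happ x hx y hy] at h2
    exact h2
  · intro x hx y hy y' hy' hne
    rw [happ x hx y hy, happ x hx y' hy', ← El.inf_val, hσ.fn x y y' hne, El.bot_val]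
  · intro s hs hfin hX
    obtain ⟨X, hXB, hX0, hXs⟩ := hX
    intro φ v hv
    classical
    have h1 : ((hfin.toFinset.image fun q : V => (fst q, snd q)).inf fun q => σ q.1 q.2) ≠ ⊥ := by
      intro h2
      have h3 : (⟨X, hXB⟩ : El B) ≤ (hfin.toFinset.image fun q : V => (fst q, snd q)).inf
          fun q => σ q.1 q.2 := by
        refine Finset.le_inf fun q hq => ?_
        obtain ⟨z, hz, rfl⟩ := Finset.mem_image.1 hq
        have hz' : z ∈ s := (Set.Finite.mem_toFinset hfin).1 hz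
        obtain ⟨x, hx, y, hy, rfl⟩ := ZFSet.mem_prod.1 (hs hz')
        refine El.le_iff.2 ?_
        simp only [fst_pair, snd_pair]
        rw [← happ x hx y hy]
        exact hXs _ hz'
      rw [h2, le_bot_iff] at h3
      exact ye_ne_bot (x := (⟨X, hXB⟩ : El B)) hX0 h3
    exact hσ.el _ h1 v (fun i => by
      refine Finset.mem_image.2 ⟨ZFSet.pair (v i).1 (v i).2, ?_, by simp⟩
      exact (Set.Finite.mem_toFinset hfin).2 (hv i)) φ

theorem ye2 (hWG : T_WG) (B : V) [IsCBA B] (N' N : V) (b : El B) (σ : V)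
    (hσ : BMapS N' N B b.val σ) : BMap N' N b (cL N' N B σ) ∧
    ∀ x ∈ N', ∀ y ∈ N, (cL N' N B σ x y).val = app σ (ZFSet.pair x y) := by
  have happ : ∀ x ∈ N', ∀ y ∈ N, (cL N' N B σ x y).val = app σ (ZFSet.pair x y) := by
    intro x hx y hy
    unfold cL
    rw [if_pos ⟨hx, hy⟩]
    exact ye_mk (app_mem hσ.func (ZFSet.pair_mem_prod.2 ⟨hx, hy⟩))
  have hbot : ∀ x y, ¬ (x ∈ N' ∧ y ∈ N) → cL N' N B σ x y = ⊥ := by
    intro x y h
    unfold cL
    rw [if_neg h]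
  have hdom : ∀ x y, cL N' N B σ x y ≠ ⊥ → x ∈ N' ∧ y ∈ N := by
    intro x y h
    by_contra h2
    exact h (hbot x y h2)
  refine ⟨⟨?_, ?_, hdom, ?_⟩, happ⟩
  · intro x hx
    rw [ye_sup (N := N) (cL N' N B σ x) fun y hy => (hdom x y hy).2]
    refine ((hWG.2.1 B _ _).1 ?_).symm
    rw [ye_set (cL N' N B σ x) (fun y => app σ (ZFSet.pair x y))
      fun y hy => (happ x hx y hy).symm]
    exact hσ.tot x hx
  · intro x y y' hne
    by_cases h1 : x ∈ N' ∧ y ∈ N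
    · by_cases h2 : x ∈ N' ∧ y' ∈ N
      · refine El.ext ?_
        rw [El.inf_val, happ x h1.1 y h1.2, happ x h2.1 y' h2.2, El.bot_val]
        exact hσ.fn x h1.1 y h1.2 y' h2.2 hne
      · rw [hbot x y' h2, inf_bot_eq]
    · rw [hbot x y h1, bot_inf_eq]
  · intro s hs v hv φ
    obtain ⟨X, hX⟩ : ∃ X : El B, X = s.inf fun q => cL N' N B σ q.1 q.2 := ⟨_, rfl⟩
    rw [← hX] at hs
    have h1 : ∀ q ∈ s, X ≤ cL N' N B σ q.1 q.2 := fun q hq => by
      rw [hX]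
      exact Finset.inf_le hq
    have h2 : ∀ q ∈ s, q.1 ∈ N' ∧ q.2 ∈ N := by
      intro q hq
      refine hdom _ _ fun h3 => hs ?_
      have h4 := h1 q hq
      rwa [h3, le_bot_iff] at h4
    obtain ⟨s0, hs0⟩ : ∃ s0 : V, ∀ z, z ∈ s0 ↔ ∃ q ∈ s, ZFSet.pair q.1 q.2 = z := by
      refine ⟨(ZFSet.prod N' N).sep fun z => ∃ q ∈ s, ZFSet.pair q.1 q.2 = z, fun z => ?_⟩
      rw [ZFSet.mem_sep]
      refine ⟨fun h => h.2, fun h => ⟨?_, h⟩⟩
      obtain ⟨q, hq, rfl⟩ := h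
      exact ZFSet.pair_mem_prod.2 (h2 q hq)
    have hsub : s0 ⊆ ZFSet.prod N' N := by
      intro z hz
      obtain ⟨q, hq, rfl⟩ := (hs0 z).1 hz
      exact ZFSet.pair_mem_prod.2 (h2 q hq)
    have hfin : (s0 : Set V).Finite := by
      refine (s.finite_toSet.image fun q : V × V => ZFSet.pair q.1 q.2).subset fun z hz => ?_
      obtain ⟨q, hq, rfl⟩ := (hs0 z).1 hz
      exact ⟨q, hq, rfl⟩
    have hle : ∀ z ∈ s0, X.val ⊆ app σ z := by
      intro z hz
      obtain ⟨q, hq, rfl⟩ := (hs0 z).1 hz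
      rw [← happ q.1 (h2 q hq).1 q.2 (h2 q hq).2]
      exact El.le_iff.1 (h1 q hq)
    have hX0 : X.val ≠ ∅ := ye_ne_empty hs
    have hPE := hσ.el s0 hsub hfin ⟨X.val, X.mem, hX0, hle⟩
    exact hPE φ v fun i => (hs0 _).2 ⟨v i, hv i, rfl⟩

theorem ye_ctb (x : V) : (x : Set V).Countable ↔ Ctbl Al x := by
  constructor
  · intro h
    by_cases hx : x = ∅
    · exact Or.inl hx
    · right
      have hne : (x : Set V).Nonempty := by
        by_contra h2
        refine hx ((ZFSet.eq_empty _).2 fun z hz => h2 ⟨z, hz⟩)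
      obtain ⟨e, he⟩ := h.exists_eq_range hne
      have hmem : ∀ n, e n ∈ x := by
        intro n
        have h2 : e n ∈ (x : Set V) := by
          rw [he]
          exact ⟨n, rfl⟩
        exact h2
      refine ⟨resS om fun i => e (nn i), trivial, isFunc_resS _ _ _ fun i _ => hmem _, ?_⟩
      intro b hb
      have h2 : b ∈ (x : Set V) := hb
      rw [he] at h2
      obtain ⟨n, rfl⟩ := h2
      refine ⟨nS n, nS_mem_om n, ?_⟩
      rw [pair_mem_resS, nn_nS]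
      exact ⟨nS_mem_om n, rfl⟩
  · rintro (rfl | ⟨f, -, h1, h2⟩)
    · refine Set.Countable.mono (fun z hz => ?_) Set.countable_empty
      exact (ZFSet.notMem_empty z hz).elim
    · have h3 : ((om : V) : Set V).Countable := by
        refine (Set.countable_range nS).mono fun z hz => ?_
        obtain ⟨n, rfl⟩ := mem_om.1 hz
        exact ⟨n, rfl⟩
      refine (h3.image (app f)).mono fun b hb => ?_
      obtain ⟨a, ha, hab⟩ := h2 b hb
      exact ⟨a, ha, app_eq (svl_of_isFunc h1) hab⟩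

theorem ye3 (N' N : V) : NP N' N ↔ NPr Al N' N := by
  constructor
  · intro h
    obtain ⟨A, τ, h1, h2⟩ := h.lev
    exact ⟨h.zfc, ⟨A, τ, h1, trivial, h2⟩, h.full, (ye_ctb N').1 h.ctb⟩
  · intro h
    obtain ⟨A, τ, h1, -, h2⟩ := h.lev
    exact ⟨h.zfc, ⟨A, τ, h1, h2⟩, h.full, (ye_ctb N').2 h.ctb⟩

theorem ye (hWG : T_WG) : T_YE := fun B _ N' N =>
  ⟨fun b σ h => ye1 hWG B N' N b σ h, fun b σ h => ye2 hWG B N' N b σ h, fun N' => ye3 N' N⟩

end SF.H4
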